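import Pool.Agent.H920.Alg.Stable

/-!
# Base change of rings of power series over a field
-/

set_option autoImplicit false

open PowerSeries TensorProduct

namespace Pool.Agent.H920

variable {k : Type} [Field k] (R : Type) [CommRing R] [Algebra k R]

/-- the homomorphism `R ⊗ B → R⟦X⟧` -/
noncomputable def Phi (B : Subalgebra k k⟦X⟧) : R ⊗[k] B →ₐ[R] R⟦X⟧ :=
  Algebra.TensorProduct.lift (Algebra.ofId R R⟦X⟧)
    ((PowerSeries.mapAlgHom (Algebra.ofId k R)).comp B.val) (fun _ _ => Commute.all _ _)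

variable {R}

lemma Phi_tmul (B : Subalgebra k k⟦X⟧) (r : R) (b : B) :
    Phi R B (r ⊗ₜ b) = r • map (algebraMap k R) (b : k⟦X⟧) := by
  rw [Phi, Algebra.TensorProduct.lift_tmul, Algebra.smul_def]
  rfl

lemma coefMap_smul_map (ρ : R →ₗ[k] k) (r : R) (b : k⟦X⟧) :
    coefMap ρ.toAddMonoidHom (r • map (algebraMap k R) b) = ρ r • b := by
  ext i
  rw [coeff_coefMap]
  change ρ (r * coeff i (map (algebraMap k R) b)) = ρ r * coeff i b
  rw [coeff_map, mul_comm, ← Algebra.smul_def, map_smul, smul_eq_mul, mul_comm]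

lemma coefMap_Phi_mem (B : Subalgebra k k⟦X⟧) (ρ : R →ₗ[k] k) (t : R ⊗[k] B) :
    coefMap ρ.toAddMonoidHom (Phi R B t) ∈ B := by
  induction t using TensorProduct.induction_on with
  | zero => simp
  | tmul r b =>
    rw [Phi_tmul, coefMap_smul_map]
    exact B.smul_mem b.2 _
  | add x y hx hy =>
    rw [map_add, map_add]
    exact B.add_mem hx hy

lemma coefMap_Phi_coord {ι : Type} [DecidableEq ι] (ℬ : Module.Basis ι k R) (B : Subalgebra k k⟦X⟧) (t : R ⊗[k] B)
    (β : ι) : coefMap (ℬ.coord β).toAddMonoidHom (Phi R B t) =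
      (TensorProduct.equivFinsuppOfBasisLeft ℬ t β : B) := by
  induction t using TensorProduct.induction_on with
  | zero => simp
  | tmul r b =>
    rw [Phi_tmul, coefMap_smul_map, TensorProduct.equivFinsuppOfBasisLeft_apply_tmul_apply]
    rfl
  | add x y hx hy =>
    rw [map_add, map_add, hx, hy, map_add]
    rfl

lemma Phi_injective (B : Subalgebra k k⟦X⟧) : Function.Injective (Phi R B) := by
  classical
  rw [injective_iff_map_eq_zero]
  intro t ht
  let ℬ := Module.Free.chooseBasis k R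
  apply (TensorProduct.equivFinsuppOfBasisLeft (N := B) ℬ).injective
  rw [map_zero]
  ext β i
  have := coefMap_Phi_coord ℬ B t β
  rw [ht, map_zero] at this
  exact (congrArg (coeff i) this).symm

/-- gluing of functions -/
lemma glue {B₁ B₂ : Subalgebra k k⟦X⟧} (hB : B₁ ⊓ B₂ = ⊥) (t₁ : R ⊗[k] B₁) (t₂ : R ⊗[k] B₂)
    (h : Phi R B₁ t₁ = Phi R B₂ t₂) : ∃ r : R, t₁ = r ⊗ₜ 1 := by
  refine ⟨constantCoeff (Phi R B₁ t₁), Phi_injective B₁ ?_⟩
  rw [Phi_tmul]
  ext n
  rw [map_smul]
  change _ = _ • coeff n (map (algebraMap k R) (1 : k⟦X⟧))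
  rw [map_one, coeff_one]
  split_ifs with hn
  · rw [hn, coeff_zero_eq_constantCoeff_apply, smul_eq_mul, mul_one]
  · rw [smul_zero]
    have key : ∀ ρ : R →ₗ[k] k, ρ (coeff n (Phi R B₁ t₁)) = 0 := by
      intro ρ
      have h1 := coefMap_Phi_mem B₁ ρ t₁
      have h2 := coefMap_Phi_mem B₂ ρ t₂
      rw [← h] at h2
      have h3 : coefMap ρ.toAddMonoidHom (Phi R B₁ t₁) ∈ B₁ ⊓ B₂ := ⟨h1, h2⟩
      rw [hB, Algebra.mem_bot] at h3
      obtain ⟨c, hc⟩ := h3
      have h4 := congrArg (coeff n) hc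
      rw [coeff_coefMap, PowerSeries.algebraMap_apply, coeff_C, if_neg hn] at h4
      exact h4.symm
    exact (Module.forall_dual_apply_eq_zero_iff k _).1 key

/-- linear disjointness -/
lemma mem_of_map_mem_span (hR : Nontrivial R) (V : Submodule k k⟦X⟧) (v : k⟦X⟧)
    (hv : map (algebraMap k R) v ∈ Submodule.span R ((map (algebraMap k R)) '' (V : Set k⟦X⟧))) :
    v ∈ V := by
  obtain ⟨ρ, hρ⟩ := (Algebra.linearMap k R).exists_leftInverse_of_injective
    (LinearMap.ker_eq_bot.2 (algebraMap k R).injective)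
  have h1 : ∀ f ∈ Submodule.span R ((map (algebraMap k R)) '' (V : Set k⟦X⟧)),
      ∀ ρ : R →ₗ[k] k, coefMap ρ.toAddMonoidHom f ∈ V := by
    intro f hf
    induction hf using Submodule.span_induction with
    | mem f hf =>
      intro ρ
      obtain ⟨b, hb, rfl⟩ := hf
      have := coefMap_smul_map ρ 1 b
      rw [one_smul] at this
      rw [this]
      exact V.smul_mem _ hb
    | zero => intro ρ; rw [map_zero]; exact V.zero_mem
    | add f g _ _ hf hg => intro ρ; rw [map_add]; exact V.add_mem (hf ρ) (hg ρ)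
    | smul r f _ hf =>
      intro ρ
      have : coefMap ρ.toAddMonoidHom (r • f) =
          coefMap (ρ.comp (LinearMap.mulLeft k r)).toAddMonoidHom f := by
        ext i
        rw [coeff_coefMap, coeff_coefMap, map_smul]
        rfl
      rw [this]
      exact hf _
  have h2 := h1 _ hv ρ
  have h3 : coefMap ρ.toAddMonoidHom (map (algebraMap k R) v) = v := by
    have := coefMap_smul_map ρ 1 v
    rw [one_smul] at this
    rw [this]
    have h4 : ρ 1 = 1 := by
      have := congrArg (fun F : k →ₗ[k] k => F 1) hρ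
      simpa using this
    rw [h4, one_smul]
  rwa [h3] at h2

end Pool.Agent.H920
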