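import Mathlib

/-!
# The algebra generated by the functions on the chart and the Frobenius powers
-/

set_option autoImplicit false

namespace Pool.Agent.H920

variable {κ : Type} [Field κ] {A P : Type} [CommRing A] [Algebra κ A] [CommRing P] [Algebra κ P]

/-- the algebra spanned by the products of elements of `A` and `Q`-th powers of elements of `P` -/
def NQ (h : A →ₐ[κ] P) (Q : ℕ) : Subalgebra κ P :=
  (Submodule.span κ {x | ∃ a d, x = h a * d ^ Q}).toSubalgebra
    (Submodule.subset_span ⟨1, 1, by simp⟩) (by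
      intro x y hx hy
      have h1 : x * y ∈ Submodule.span κ {x | ∃ a d, x = h a * d ^ Q} *
        Submodule.span κ {x | ∃ a d, x = h a * d ^ Q} := Submodule.mul_mem_mul hx hy
      rw [Submodule.span_mul_span] at h1
      refine Submodule.span_mono ?_ h1
      rintro _ ⟨_, ⟨a, d, rfl⟩, _, ⟨a', d', rfl⟩, rfl⟩
      refine ⟨a * a', d * d', ?_⟩
      change h a * d ^ Q * (h a' * d' ^ Q) = _
      rw [map_mul, mul_pow]; ring)

lemma mem_NQ {h : A →ₐ[κ] P} {Q : ℕ} {x : P} :
    x ∈ NQ h Q ↔ x ∈ Submodule.span κ {x | ∃ a d, x = h a * d ^ Q} := Iff.rfl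

lemma gen_mem_NQ (h : A →ₐ[κ] P) (Q : ℕ) (a : A) (d : P) : h a * d ^ Q ∈ NQ h Q :=
  mem_NQ.2 (Submodule.subset_span ⟨a, d, rfl⟩)

lemma alg_mem_NQ (h : A →ₐ[κ] P) (Q : ℕ) (a : A) : h a ∈ NQ h Q := by
  have := gen_mem_NQ h Q a 1
  simpa using this

lemma pow_mem_NQ (h : A →ₐ[κ] P) (Q : ℕ) (d : P) : d ^ Q ∈ NQ h Q := by
  have := gen_mem_NQ h Q 1 d
  simpa using this

lemma map_mem_NQ {A' P' : Type} [CommRing A'] [Algebra κ A'] [CommRing P'] [Algebra κ P']
    {h : A →ₐ[κ] P} {h' : A' →ₐ[κ] P'} {f : A →ₐ[κ] A'} {g : P →ₐ[κ] P'}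
    (hfg : g.comp h = h'.comp f) (Q : ℕ) {x : P} (hx : x ∈ NQ h Q) : g x ∈ NQ h' Q := by
  rw [mem_NQ] at hx
  induction hx using Submodule.span_induction with
  | mem x hx =>
    obtain ⟨a, d, rfl⟩ := hx
    rw [map_mul, map_pow]
    have : g (h a) = h' (f a) := congrArg (fun F : A →ₐ[κ] P' => F a) hfg
    rw [this]
    exact gen_mem_NQ _ _ _ _
  | zero => rw [map_zero]; exact Subalgebra.zero_mem _
  | add x y _ _ hx hy => rw [map_add]; exact Subalgebra.add_mem _ hx hy
  | smul r x _ hx => rw [map_smul]; exact Subalgebra.smul_mem _ hx r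

/-- elements of the algebra are combinations of powers -/
lemma NQ_pow {p n₀ : ℕ} (h : A →ₐ[κ] P)
    (hst : ∀ n, n₀ ≤ n → ∀ c : P, c ^ p ^ n₀ ∈ Submodule.span κ {x | ∃ a d, x = h a * d ^ p ^ n})
    (m : ℕ) {x : P} (hx : x ∈ NQ h (p ^ n₀)) :
    x ∈ Submodule.span κ {x | ∃ a, ∃ d ∈ NQ h (p ^ n₀), x = h a * d ^ p ^ m} := by
  rw [mem_NQ] at hx
  induction hx using Submodule.span_induction with
  | mem x hx =>
    obtain ⟨a, d, rfl⟩ := hx
    have h1 := hst (n₀ + m) (Nat.le_add_right _ _) d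
    have h2 : ∀ y ∈ Submodule.span κ {x | ∃ a d, x = h a * d ^ p ^ (n₀ + m)},
        h a * y ∈ Submodule.span κ {x | ∃ a, ∃ d ∈ NQ h (p ^ n₀), x = h a * d ^ p ^ m} := by
      intro y hy
      induction hy using Submodule.span_induction with
      | mem y hy =>
        obtain ⟨b, d, rfl⟩ := hy
        refine Submodule.subset_span ⟨a * b, d ^ p ^ n₀, pow_mem_NQ _ _ _, ?_⟩
        rw [map_mul, ← pow_mul, ← pow_add, mul_assoc]
      | zero => rw [mul_zero]; exact Submodule.zero_mem _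
      | add x y _ _ hx hy => rw [mul_add]; exact Submodule.add_mem _ hx hy
      | smul r x _ hx => rw [mul_smul_comm]; exact Submodule.smul_mem _ _ hx
    exact h2 _ h1
  | zero => exact Submodule.zero_mem _
  | add x y _ _ hx hy => exact Submodule.add_mem _ hx hy
  | smul r x _ hx => exact Submodule.smul_mem _ _ hx

/-- finiteness -/
lemma NQ_finite {p : ℕ} [Fact p.Prime] [CharP κ p] (n : ℕ) (h : A →ₐ[κ] P)
    (hfin : h.toRingHom.Finite) :
    ∃ G : Finset P, (∀ g ∈ G, g ∈ NQ h (p ^ n)) ∧ ∀ x ∈ NQ h (p ^ n),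
      x ∈ Submodule.span κ {x | ∃ a, ∃ g ∈ G, x = h a * g} := by
  classical
  by_cases hne : Nontrivial P
  swap
  · rw [not_nontrivial_iff_subsingleton] at hne
    refine ⟨∅, by simp, fun x _ => ?_⟩
    rw [Subsingleton.elim x 0]
    exact Submodule.zero_mem _
  haveI : CharP P p := charP_of_injective_algebraMap (algebraMap κ P).injective p
  haveI : ExpChar P p := ExpChar.prime Fact.out
  letI : Algebra A P := h.toRingHom.toAlgebra
  have hfin' : Module.Finite A P := hfin
  obtain ⟨s, hs⟩ := hfin'.fg_top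
  refine ⟨s.image fun g => g ^ p ^ n, ?_, ?_⟩
  · intro g hg
    obtain ⟨g, _, rfl⟩ := Finset.mem_image.1 hg
    exact pow_mem_NQ _ _ _
  · intro x hx
    rw [mem_NQ] at hx
    have key : ∀ (a : A) (d : P), h a * d ^ p ^ n ∈
        Submodule.span κ {x | ∃ a, ∃ g ∈ s.image fun g => g ^ p ^ n, x = h a * g} := by
      intro a d
      have hd : d ∈ Submodule.span A (s : Set P) := by rw [hs]; trivial
      induction hd using Submodule.span_induction generalizing a with
      | mem d hd => exact Submodule.subset_span ⟨a, d ^ p ^ n, Finset.mem_image.2 ⟨d, hd, rfl⟩, rfl⟩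
      | zero =>
        rw [zero_pow (pow_ne_zero _ (Fact.out : p.Prime).ne_zero), mul_zero]
        exact Submodule.zero_mem _
      | add x y _ _ hx hy =>
        rw [add_pow_expChar_pow, mul_add]
        exact Submodule.add_mem _ (hx a) (hy a)
      | smul r x _ hx =>
        have : h a * (r • x) ^ p ^ n = h (a * r ^ p ^ n) * x ^ p ^ n := by
          rw [Algebra.smul_def, mul_pow, map_mul, map_pow]
          change h a * ((h r) ^ p ^ n * _) = _
          ring
        rw [this]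
        exact hx _
    induction hx using Submodule.span_induction with
    | mem x hx => obtain ⟨a, d, rfl⟩ := hx; exact key a d
    | zero => exact Submodule.zero_mem _
    | add x y _ _ hx hy => exact Submodule.add_mem _ hx hy
    | smul r x _ hx => exact Submodule.smul_mem _ _ hx

/-- the algebra is of finite type -/
lemma NQ_finiteType {p : ℕ} [Fact p.Prime] [CharP κ p] (n : ℕ) (h : A →ₐ[κ] P)
    (hfin : h.toRingHom.Finite) (s : Finset A) (hs : Algebra.adjoin κ (s : Set A) = ⊤) :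
    Algebra.FiniteType κ (NQ h (p ^ n)) := by
  classical
  obtain ⟨G, hG, hG'⟩ := NQ_finite (p := p) n h hfin
  let s' : Finset (NQ h (p ^ n)) := (s.image fun a => (⟨h a, alg_mem_NQ h _ a⟩ : NQ h (p ^ n))) ∪
    G.attach.image fun g => ⟨g.1, hG g.1 g.2⟩
  refine ⟨⟨s', ?_⟩⟩
  rw [eq_top_iff]
  have hA : ∀ a : A, (⟨h a, alg_mem_NQ h _ a⟩ : NQ h (p ^ n)) ∈ Algebra.adjoin κ (s' : Set _) := by
    intro a
    have ha : a ∈ Algebra.adjoin κ (s : Set A) := by rw [hs]; trivial
    induction ha using Algebra.adjoin_induction with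
    | mem x hx =>
      refine Algebra.subset_adjoin ?_
      simp only [s', Finset.coe_union, Finset.coe_image, Set.mem_union, Set.mem_image]
      exact Or.inl ⟨x, hx, rfl⟩
    | algebraMap r =>
      have : (⟨h (algebraMap κ A r), alg_mem_NQ h _ _⟩ : NQ h (p ^ n)) =
        algebraMap κ _ r := Subtype.ext (h.commutes r)
      rw [this]
      exact Subalgebra.algebraMap_mem _ _
    | add x y _ _ hx hy =>
      have : (⟨h (x + y), alg_mem_NQ h _ _⟩ : NQ h (p ^ n)) =
        ⟨h x, alg_mem_NQ h _ _⟩ + ⟨h y, alg_mem_NQ h _ _⟩ := Subtype.ext (map_add h x y)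
      rw [this]
      exact Subalgebra.add_mem _ hx hy
    | mul x y _ _ hx hy =>
      have : (⟨h (x * y), alg_mem_NQ h _ _⟩ : NQ h (p ^ n)) =
        ⟨h x, alg_mem_NQ h _ _⟩ * ⟨h y, alg_mem_NQ h _ _⟩ := Subtype.ext (map_mul h x y)
      rw [this]
      exact Subalgebra.mul_mem _ hx hy
  have key : ∀ x ∈ Submodule.span κ {x | ∃ a, ∃ g ∈ G, x = h a * g},
      ∃ x' : NQ h (p ^ n), x' ∈ Algebra.adjoin κ (s' : Set (NQ h (p ^ n))) ∧ (x' : P) = x := by
    intro x hx
    induction hx using Submodule.span_induction with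
    | mem x hx =>
      obtain ⟨a, g, hg, rfl⟩ := hx
      refine ⟨⟨h a, alg_mem_NQ h _ a⟩ * ⟨g, hG g hg⟩, Subalgebra.mul_mem _ (hA a)
        (Algebra.subset_adjoin ?_), rfl⟩
      simp only [s', Finset.coe_union, Finset.coe_image, Set.mem_union, Set.mem_image]
      exact Or.inr ⟨⟨g, hg⟩, by simp, rfl⟩
    | zero => exact ⟨0, Subalgebra.zero_mem _, rfl⟩
    | add x y _ _ hx hy =>
      obtain ⟨x', hx', rfl⟩ := hx
      obtain ⟨y', hy', rfl⟩ := hy
      exact ⟨x' + y', Subalgebra.add_mem _ hx' hy', rfl⟩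
    | smul r x _ hx =>
      obtain ⟨x', hx', rfl⟩ := hx
      exact ⟨r • x', Subalgebra.smul_mem _ hx' r, rfl⟩
  rintro ⟨x, hx⟩ -
  obtain ⟨x', hx', hxx⟩ := key x (hG' x hx)
  have : (⟨x, hx⟩ : NQ h (p ^ n)) = x' := Subtype.ext hxx.symm
  rw [this]
  exact hx'

end Pool.Agent.H920
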