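import Pool.Agent.H920.Alg.FD
import Pool.Agent.H920.Alg.LD
import Pool.Agent.H920.Alg.NQ

/-!
# The rings of power series defined by the charts
-/

set_option autoImplicit false

open PowerSeries

namespace Pool.Agent.H920

section CC

variable {κ E N : Type} [Field κ] [Field E] [Algebra κ E] [CommRing N] [Algebra κ N]

/-- the `E`-algebra spanned by the image of a homomorphism -/
noncomputable def CC (τ : N →ₐ[κ] E⟦X⟧) : Subalgebra E E⟦X⟧ :=
  (Submodule.span E (Set.range τ)).toSubalgebra (Submodule.subset_span ⟨1, map_one τ⟩) (by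
    intro x y hx hy
    have h1 := Submodule.mul_mem_mul hx hy
    rw [Submodule.span_mul_span] at h1
    refine Submodule.span_mono ?_ h1
    rintro _ ⟨_, ⟨a, rfl⟩, _, ⟨b, rfl⟩, rfl⟩
    exact ⟨a * b, map_mul τ a b⟩)

lemma mem_CC {τ : N →ₐ[κ] E⟦X⟧} {x : E⟦X⟧} : x ∈ CC τ ↔ x ∈ Submodule.span E (Set.range τ) :=
  Iff.rfl

lemma apply_mem_CC (τ : N →ₐ[κ] E⟦X⟧) (x : N) : τ x ∈ CC τ := Submodule.subset_span ⟨x, rfl⟩

lemma CC_span (τ : N →ₐ[κ] E⟦X⟧) (S : Set N) (hS : ∀ x : N, x ∈ Submodule.span κ S) {c : E⟦X⟧}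
    (hc : c ∈ CC τ) : c ∈ Submodule.span E (τ '' S) := by
  rw [mem_CC] at hc
  induction hc using Submodule.span_induction with
  | mem c hc =>
    obtain ⟨x, rfl⟩ := hc
    have hx := hS x
    induction hx using Submodule.span_induction with
    | mem x hx => exact Submodule.subset_span ⟨x, hx, rfl⟩
    | zero => rw [map_zero]; exact Submodule.zero_mem _
    | add x y _ _ hx hy => rw [map_add]; exact Submodule.add_mem _ hx hy
    | smul r x _ hx =>
      have : τ (r • x) = algebraMap κ E r • τ x := by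
        rw [map_smul, algebraMap_smul]
      rw [this]
      exact Submodule.smul_mem _ _ hx
  | zero => exact Submodule.zero_mem _
  | add x y _ _ hx hy => exact Submodule.add_mem _ hx hy
  | smul r x _ hx => exact Submodule.smul_mem _ _ hx

end CC

section sub

variable {κ P : Type} [Field κ] [CommRing P] [Algebra κ P]

lemma mem_span_sub (N : Subalgebra κ P) (S : Set P) (hS : ∀ s ∈ S, s ∈ N) (x : N)
    (hx : (x : P) ∈ Submodule.span κ S) : x ∈ Submodule.span κ {s : N | (s : P) ∈ S} := by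
  have key : ∀ x ∈ Submodule.span κ S, ∃ x' : N, x' ∈ Submodule.span κ {s : N | (s : P) ∈ S} ∧
      (x' : P) = x := by
    intro x hx
    induction hx using Submodule.span_induction with
    | mem x hx => exact ⟨⟨x, hS x hx⟩, Submodule.subset_span hx, rfl⟩
    | zero => exact ⟨0, Submodule.zero_mem _, rfl⟩
    | add x y _ _ hx hy =>
      obtain ⟨x', hx', rfl⟩ := hx
      obtain ⟨y', hy', rfl⟩ := hy
      exact ⟨x' + y', Submodule.add_mem _ hx' hy', rfl⟩
    | smul r x _ hx =>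
      obtain ⟨x', hx', rfl⟩ := hx
      exact ⟨r • x', Submodule.smul_mem _ r hx', rfl⟩
  obtain ⟨x', hx', h⟩ := key x hx
  rwa [← Subtype.ext h]

end sub

section chart

variable {κ E A P : Type} [Field κ] [Field E] [Algebra κ E] [CommRing A] [Algebra κ A] [CommRing P]
  [Algebra κ P] {p : ℕ} [Fact p.Prime]

/-- the algebra is spanned by monomials -/
def Mon (κ : Type) {A : Type} [Field κ] [CommRing A] [Algebra κ A] (n : ℕ) (z y : A) : Prop :=
  ∀ a : A, a ∈ Submodule.span κ {a | ∃ i b : ℕ, b < n ∧ a = z ^ i * y ^ b}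

variable {n : ℕ} {z y : A} (hmon : Mon κ n z y) (h : A →ₐ[κ] P)

include hmon

lemma Mon.mul_mem (M : Submodule κ P) (d : P)
    (hM : ∀ i b : ℕ, b < n → h z ^ i * h y ^ b * d ∈ M) (a : A) : h a * d ∈ M := by
  have ha := hmon a
  induction ha using Submodule.span_induction with
  | mem a ha =>
    obtain ⟨i, b, hb, rfl⟩ := ha
    rw [map_mul, map_pow, map_pow]
    exact hM i b hb
  | zero => rw [map_zero, zero_mul]; exact M.zero_mem
  | add x y _ _ hx hy => rw [map_add, add_mul]; exact M.add_mem hx hy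
  | smul r x _ hx => rw [map_smul, smul_mul_assoc]; exact M.smul_mem _ hx

/-- finite generation -/
theorem exists_gens [CharP κ p] (m : ℕ) (hfin : h.toRingHom.Finite)
    (τ : NQ h (p ^ m) →ₐ[κ] E⟦X⟧) :
    ∃ G : Finset E⟦X⟧, (∀ g ∈ G, g ∈ CC τ) ∧ ∀ c ∈ CC τ, c ∈ Submodule.span E
      {f | ∃ i : ℕ, ∃ g ∈ G, f = τ ⟨h z, alg_mem_NQ h _ z⟩ ^ i * g} := by
  classical
  obtain ⟨G, hG, hG'⟩ := NQ_finite (p := p) m h hfin
  let Z' : NQ h (p ^ m) := ⟨h z, alg_mem_NQ h _ z⟩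
  let Y' : NQ h (p ^ m) := ⟨h y, alg_mem_NQ h _ y⟩
  let F : ℕ × G → NQ h (p ^ m) := fun x => Y' ^ x.1 * ⟨x.2.1, hG x.2.1 x.2.2⟩
  let G₁ : Finset E⟦X⟧ := (Finset.range n ×ˢ (Finset.univ : Finset G)).image fun x => τ (F x)
  refine ⟨G₁, ?_, ?_⟩
  · intro g hg
    obtain ⟨x, _, rfl⟩ := Finset.mem_image.1 hg
    exact apply_mem_CC τ _
  · let S : Set P := {x | ∃ i b : ℕ, ∃ g ∈ G, b < n ∧ x = h z ^ i * h y ^ b * g}
    have hS : ∀ s ∈ S, s ∈ NQ h (p ^ m) := by
      rintro _ ⟨i, b, g, hg, _, rfl⟩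
      exact Subalgebra.mul_mem _ (Subalgebra.mul_mem _ (Subalgebra.pow_mem _ (alg_mem_NQ h _ z) _)
        (Subalgebra.pow_mem _ (alg_mem_NQ h _ y) _)) (hG g hg)
    have h1 : ∀ x : NQ h (p ^ m), x ∈ Submodule.span κ {s : NQ h (p ^ m) | (s : P) ∈ S} := by
      intro x
      apply mem_span_sub _ S hS
      have h2 := hG' x.1 x.2
      have h3 : Submodule.span κ {x | ∃ a, ∃ g ∈ G, x = h a * g} ≤ Submodule.span κ S := by
        rw [Submodule.span_le]
        rintro _ ⟨a, g, hg, rfl⟩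
        apply hmon.mul_mem h
        intro i b hb
        exact Submodule.subset_span ⟨i, b, g, hg, hb, rfl⟩
      exact h3 h2
    intro c hc
    have h2 := CC_span τ _ h1 hc
    refine Submodule.span_mono ?_ h2
    rintro _ ⟨s, ⟨i, b, g, hg, hb, hs⟩, rfl⟩
    refine ⟨i, τ (F (b, ⟨g, hg⟩)), Finset.mem_image.2 ⟨(b, ⟨g, hg⟩), by simp [hb], rfl⟩, ?_⟩
    have h3 : s = Z' ^ i * F (b, ⟨g, hg⟩) := by
      apply Subtype.ext
      rw [hs]
      change _ = h z ^ i * (h y ^ b * g)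
      ring
    rw [h3, map_mul, map_pow]

variable {k : Type} [Field k] [Algebra k E] [CharP E p]

/-- stability -/
theorem stab_CC (n₀ : ℕ)
    (hst : ∀ n, n₀ ≤ n → ∀ c : P, c ^ p ^ n₀ ∈ Submodule.span κ {x | ∃ a d, x = h a * d ^ p ^ n})
    (τ : NQ h (p ^ n₀) →ₐ[κ] E⟦X⟧) (ζ υ : k⟦X⟧)
    (hζ : τ ⟨h z, alg_mem_NQ h _ z⟩ = map (algebraMap k E) ζ)
    (hυ : τ ⟨h y, alg_mem_NQ h _ y⟩ = map (algebraMap k E) υ)
    (hkp : ∀ (c : k) (n : ℕ), ∃ a : E, a ^ p ^ n = algebraMap k E c)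
    (m : ℕ) (l : E →+ E) (hl : FrobLin p m l) (f : E⟦X⟧) (hf : f ∈ CC τ) : coefMap l f ∈ CC τ := by
  let Z' : NQ h (p ^ n₀) := ⟨h z, alg_mem_NQ h _ z⟩
  let Y' : NQ h (p ^ n₀) := ⟨h y, alg_mem_NQ h _ y⟩
  let S : Set P := {x | ∃ i b : ℕ, ∃ d ∈ NQ h (p ^ n₀), x = h z ^ i * h y ^ b * d ^ p ^ m}
  have hS : ∀ s ∈ S, s ∈ NQ h (p ^ n₀) := by
    rintro _ ⟨i, b, g, hg, rfl⟩
    exact Subalgebra.mul_mem _ (Subalgebra.mul_mem _ (Subalgebra.pow_mem _ (alg_mem_NQ h _ z) _)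
      (Subalgebra.pow_mem _ (alg_mem_NQ h _ y) _)) (Subalgebra.pow_mem _ hg _)
  have h1 : ∀ x : NQ h (p ^ n₀), x ∈ Submodule.span κ {s : NQ h (p ^ n₀) | (s : P) ∈ S} := by
    intro x
    apply mem_span_sub _ S hS
    have h2 := NQ_pow h hst m x.2
    have h3 : Submodule.span κ {x | ∃ a, ∃ d ∈ NQ h (p ^ n₀), x = h a * d ^ p ^ m} ≤
        Submodule.span κ S := by
      rw [Submodule.span_le]
      rintro _ ⟨a, g, hg, rfl⟩
      apply hmon.mul_mem h
      intro i b hb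
      exact Submodule.subset_span ⟨i, b, g, hg, rfl⟩
    exact h3 h2
  have h2 := CC_span τ _ h1 hf
  have key : ∀ f ∈ Submodule.span E (τ '' {s : NQ h (p ^ n₀) | (s : P) ∈ S}), ∀ e : E,
      coefMap l (e • f) ∈ CC τ := by
    intro f hf
    induction hf using Submodule.span_induction with
    | mem f hf =>
      intro e
      obtain ⟨s, ⟨i, b, d, hd, hs⟩, rfl⟩ := hf
      have h3 : s = Z' ^ i * Y' ^ b * (⟨d, hd⟩ : NQ h (p ^ n₀)) ^ p ^ m := by
        apply Subtype.ext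
        rw [hs]
        rfl
      have h4 : τ s = map (algebraMap k E) (ζ ^ i * υ ^ b) * τ ⟨d, hd⟩ ^ p ^ m := by
        rw [h3, map_mul, map_mul, map_pow, map_pow, map_pow, hζ, hυ, map_mul, map_pow, map_pow]
      have h5 : e • τ s = map (algebraMap k E) (ζ ^ i * υ ^ b) *
          (τ ⟨d, hd⟩ ^ p ^ m * PowerSeries.C e) := by
        rw [h4, Algebra.smul_def, PowerSeries.algebraMap_apply, Algebra.algebraMap_self_apply]
        ring
      rw [h5, coefMap_mul, coefMap_mul]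
      · have h6 : coefMap l (PowerSeries.C e) = PowerSeries.C (l e) := by
          ext j
          rw [coeff_coefMap, coeff_C, coeff_C]
          split_ifs
          · rfl
          · exact map_zero l
        have h7 : map (algebraMap k E) (ζ ^ i * υ ^ b) * (τ ⟨d, hd⟩ ^ p ^ m * PowerSeries.C (l e)) =
            l e • τ s := by
          rw [h4, Algebra.smul_def, PowerSeries.algebraMap_apply, Algebra.algebraMap_self_apply]
          ring
        rw [h6, h7]
        exact Subalgebra.smul_mem _ (apply_mem_CC τ s) _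
      · intro j a
        obtain ⟨c, hc⟩ := exists_coeff_pow (p := p) (τ ⟨d, hd⟩) m j
        rw [hc]
        exact hl c a
      · intro j a
        rw [PowerSeries.coeff_map]
        obtain ⟨c, hc⟩ := hkp (coeff j (ζ ^ i * υ ^ b)) m
        rw [← hc]
        exact hl c a
    | zero => intro e; rw [smul_zero, map_zero]; exact Subalgebra.zero_mem _
    | add x y _ _ hx hy => intro e; rw [smul_add, map_add]; exact Subalgebra.add_mem _ (hx e) (hy e)
    | smul r x _ hx => intro e; rw [smul_smul]; exact hx _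
  have h3 := key f h2 1
  rwa [one_smul] at h3

end chart

section loc

variable {κ E A P A' P' : Type} [Field κ] [Field E] [Algebra κ E] [CommRing A] [Algebra κ A]
  [CommRing P] [Algebra κ P] [CommRing A'] [Algebra κ A'] [CommRing P'] [Algebra κ P']

/-- localisation -/
lemma NQ_loc {h : A →ₐ[κ] P} {h' : A' →ₐ[κ] P'} {f : A →ₐ[κ] A'} {g : P →ₐ[κ] P'}
    (hfg : g.comp h = h'.comp f) (Q : ℕ) (z : A)
    (hA : ∀ a' : A', ∃ (m : ℕ) (b : A), f z ^ m * a' = f b)
    (hP : ∀ d : P', ∃ (m : ℕ) (b : P), h' (f z) ^ m * d = g b) (x : P') (hx : x ∈ NQ h' Q) :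
    ∃ (m : ℕ) (x' : P), x' ∈ NQ h Q ∧ h' (f z) ^ m * x = g x' := by
  have hfg' : ∀ a, g (h a) = h' (f a) := fun a => congrArg (fun F : A →ₐ[κ] P' => F a) hfg
  rw [mem_NQ] at hx
  induction hx using Submodule.span_induction with
  | mem x hx =>
    obtain ⟨a, d, rfl⟩ := hx
    obtain ⟨m₁, b₁, h₁⟩ := hA a
    obtain ⟨m₂, b₂, h₂⟩ := hP d
    refine ⟨m₁ + m₂ * Q, h b₁ * b₂ ^ Q, gen_mem_NQ h Q b₁ b₂, ?_⟩
    rw [map_mul, map_pow, hfg', ← h₁, ← h₂, map_mul, map_pow, mul_pow, ← pow_mul, pow_add]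
    ring
  | zero => exact ⟨0, 0, Subalgebra.zero_mem _, by rw [mul_zero, map_zero]⟩
  | add x y _ _ hx hy =>
    obtain ⟨m₁, b₁, hb₁, h₁⟩ := hx
    obtain ⟨m₂, b₂, hb₂, h₂⟩ := hy
    refine ⟨m₁ + m₂, h z ^ m₂ * b₁ + h z ^ m₁ * b₂, Subalgebra.add_mem _
      (Subalgebra.mul_mem _ (Subalgebra.pow_mem _ (alg_mem_NQ h _ z) _) hb₁)
      (Subalgebra.mul_mem _ (Subalgebra.pow_mem _ (alg_mem_NQ h _ z) _) hb₂), ?_⟩
    rw [map_add, map_mul, map_mul, map_pow, map_pow, hfg', ← h₁, ← h₂, pow_add]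
    ring
  | smul r x _ hx =>
    obtain ⟨m₁, b₁, hb₁, h₁⟩ := hx
    refine ⟨m₁, r • b₁, Subalgebra.smul_mem _ hb₁ r, ?_⟩
    rw [mul_smul_comm, h₁, map_smul]

/-- localisation of the rings of power series -/
lemma CC_loc {N N' : Type} [CommRing N] [Algebra κ N] [CommRing N'] [Algebra κ N']
    (τ : N →ₐ[κ] E⟦X⟧) (τ' : N' →ₐ[κ] E⟦X⟧) (Z : E⟦X⟧) (hZ : Z ∈ CC τ)
    (hloc : ∀ x : N', ∃ (m : ℕ) (x' : N), Z ^ m * τ' x = τ x') (c : E⟦X⟧) (hc : c ∈ CC τ') :
    ∃ m : ℕ, Z ^ m * c ∈ CC τ := by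
  rw [mem_CC] at hc
  induction hc using Submodule.span_induction with
  | mem c hc =>
    obtain ⟨x, rfl⟩ := hc
    obtain ⟨m, x', hx'⟩ := hloc x
    exact ⟨m, by rw [hx']; exact apply_mem_CC τ x'⟩
  | zero => exact ⟨0, by rw [mul_zero]; exact Subalgebra.zero_mem _⟩
  | add x y _ _ hx hy =>
    obtain ⟨m₁, h₁⟩ := hx
    obtain ⟨m₂, h₂⟩ := hy
    refine ⟨m₁ + m₂, ?_⟩
    have : Z ^ (m₁ + m₂) * (x + y) = Z ^ m₂ * (Z ^ m₁ * x) + Z ^ m₁ * (Z ^ m₂ * y) := by
      rw [pow_add]; ring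
    rw [this]
    exact Subalgebra.add_mem _ (Subalgebra.mul_mem _ (Subalgebra.pow_mem _ hZ _) h₁)
      (Subalgebra.mul_mem _ (Subalgebra.pow_mem _ hZ _) h₂)
  | smul r x _ hx =>
    obtain ⟨m, h₁⟩ := hx
    refine ⟨m, ?_⟩
    rw [mul_smul_comm]
    exact Subalgebra.smul_mem _ h₁ r

end loc

section rat

variable {E k : Type} [Field E] [Field k] [Algebra k E]

/-- the rational elements -/
def Rat' (C : Subalgebra E E⟦X⟧) : Subalgebra k k⟦X⟧ where
  carrier := {g | map (algebraMap k E) g ∈ C}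
  mul_mem' := by
    intro a b ha hb
    change map (algebraMap k E) (a * b) ∈ C
    rw [map_mul]
    exact C.mul_mem ha hb
  add_mem' := by
    intro a b ha hb
    change map (algebraMap k E) (a + b) ∈ C
    rw [map_add]
    exact C.add_mem ha hb
  algebraMap_mem' := by
    intro r
    change map (algebraMap k E) (algebraMap k k⟦X⟧ r) ∈ C
    have : map (algebraMap k E) (algebraMap k k⟦X⟧ r) = algebraMap E E⟦X⟧ (algebraMap k E r) := by
      rw [PowerSeries.algebraMap_apply, PowerSeries.algebraMap_apply, map_C]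
      rfl
    rw [this]
    exact C.algebraMap_mem _

lemma mem_Rat' {C : Subalgebra E E⟦X⟧} {g : k⟦X⟧} : g ∈ Rat' (k := k) C ↔
    map (algebraMap k E) g ∈ C := Iff.rfl

/-- elements in the span of the rational elements are in the image of the tensor product -/
lemma exists_Phi (C : Subalgebra E E⟦X⟧) (c : E⟦X⟧) (hc : c ∈ Submodule.span E
    {f | f ∈ C ∧ ∃ g : k⟦X⟧, map (algebraMap k E) g = f}) :
    ∃ t, Phi E (Rat' (k := k) C) t = c := by
  induction hc using Submodule.span_induction with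
  | mem c hc =>
    obtain ⟨hc, g, rfl⟩ := hc
    refine ⟨1 ⊗ₜ ⟨g, hc⟩, ?_⟩
    rw [Phi_tmul, one_smul]
  | zero => exact ⟨0, map_zero _⟩
  | add x y _ _ hx hy =>
    obtain ⟨s, hs⟩ := hx
    obtain ⟨t, ht⟩ := hy
    exact ⟨s + t, by rw [map_add, hs, ht]⟩
  | smul r x _ hx =>
    obtain ⟨s, hs⟩ := hx
    exact ⟨r • s, by rw [map_smul, hs]⟩

/-- the ring of rational elements is finite over a polynomial ring -/
theorem rat_finite (C : Subalgebra E E⟦X⟧) (ζ : k⟦X⟧) (hζ : map (algebraMap k E) ζ ∈ C)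
    (G : Finset E⟦X⟧) (hG : ∀ g ∈ G, g ∈ C)
    (hfg : ∀ c ∈ C, c ∈ Submodule.span E {f | ∃ i : ℕ, ∃ g ∈ G, f = map (algebraMap k E) ζ ^ i * g})
    (hrat : ∀ c ∈ C, c ∈ Submodule.span E {f | f ∈ C ∧ ∃ g : k⟦X⟧, map (algebraMap k E) g = f}) :
    ∃ G' : Finset k⟦X⟧, (∀ g ∈ G', g ∈ Rat' (k := k) C) ∧ ∀ b ∈ Rat' (k := k) C,
      b ∈ Submodule.span k {f | ∃ i : ℕ, ∃ g ∈ G', f = ζ ^ i * g} := by
  classical
  -- finitely many rational elements suffice
  have h1 : ∃ G' : Finset k⟦X⟧, (∀ g ∈ G', g ∈ Rat' (k := k) C) ∧ ∀ c ∈ G,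
      c ∈ Submodule.span E {f | ∃ g ∈ G', map (algebraMap k E) g = f} := by
    clear hfg
    induction G using Finset.induction_on with
    | empty => exact ⟨∅, by simp, by simp⟩
    | insert a s ha ih =>
      obtain ⟨G₁, hG₁, hG₁'⟩ := ih fun g hg => hG g (Finset.mem_insert_of_mem hg)
      have h2 := hrat a (hG a (Finset.mem_insert_self _ _))
      obtain ⟨T, hT, hT'⟩ := Submodule.mem_span_finite_of_mem_span h2
      have h3 : ∀ t : T, ∃ g : k⟦X⟧, map (algebraMap k E) g = t.1 := fun t => (hT t.2).2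
      choose γ hγ using h3
      refine ⟨G₁ ∪ (Finset.univ.image γ), ?_, ?_⟩
      · intro g hg
        rcases Finset.mem_union.1 hg with hg | hg
        · exact hG₁ g hg
        · obtain ⟨t, _, rfl⟩ := Finset.mem_image.1 hg
          rw [mem_Rat', hγ]
          exact (hT t.2).1
      · intro c hc
        rcases Finset.mem_insert.1 hc with rfl | hc
        · refine Submodule.span_mono ?_ hT'
          intro t ht
          exact ⟨γ ⟨t, ht⟩, Finset.mem_union_right _ (Finset.mem_image_of_mem _ (Finset.mem_univ _)),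
            hγ _⟩
        · refine Submodule.span_mono ?_ (hG₁' c hc)
          rintro _ ⟨g, hg, rfl⟩
          exact ⟨g, Finset.mem_union_left _ hg, rfl⟩
  obtain ⟨G', hG', hG''⟩ := h1
  refine ⟨G', hG', ?_⟩
  intro b hb
  apply mem_of_map_mem_span (R := E) inferInstance
  have h4 := hfg _ hb
  have h5 : ∀ i : ℕ, ∀ c ∈ Submodule.span E {f | ∃ g ∈ G', map (algebraMap k E) g = f},
      map (algebraMap k E) ζ ^ i * c ∈ Submodule.span E ((map (algebraMap k E)) ''
        ((Submodule.span k {f | ∃ i : ℕ, ∃ g ∈ G', f = ζ ^ i * g} : Submodule k k⟦X⟧) : Set k⟦X⟧)) := by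
    intro i c hc
    induction hc using Submodule.span_induction with
    | mem c hc =>
      obtain ⟨g, hg, rfl⟩ := hc
      refine Submodule.subset_span ⟨ζ ^ i * g, Submodule.subset_span ⟨i, g, hg, rfl⟩, ?_⟩
      rw [map_mul, map_pow]
    | zero => rw [mul_zero]; exact Submodule.zero_mem _
    | add x y _ _ hx hy => rw [mul_add]; exact Submodule.add_mem _ hx hy
    | smul r x _ hx => rw [mul_smul_comm]; exact Submodule.smul_mem _ _ hx
  have h6 : Submodule.span E {f | ∃ i : ℕ, ∃ g ∈ G, f = map (algebraMap k E) ζ ^ i * g} ≤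
      Submodule.span E ((map (algebraMap k E)) ''
        ((Submodule.span k {f | ∃ i : ℕ, ∃ g ∈ G', f = ζ ^ i * g} : Submodule k k⟦X⟧) : Set k⟦X⟧)) := by
    rw [Submodule.span_le]
    rintro _ ⟨i, g, hg, rfl⟩
    exact h5 i g (hG'' g hg)
  exact h6 h4

end rat

end Pool.Agent.H920
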