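/-!
# The index set of the charts
-/

set_option autoImplicit false

namespace Pool.Agent.H920

/-- the index set of the charts: `o` stands for the intersection of the charts `l` and `r` -/
inductive Ix : Type
  | o : Ix
  | l : Ix
  | r : Ix

end Pool.Agent.H920
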