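import Mathlib

/-!
# Ring homomorphisms from tensor products
-/

set_option autoImplicit false

open TensorProduct

namespace Pool.Agent.H920

section

variable {R A B C : Type} [CommRing R] [CommRing A] [CommRing B] [CommRing C] [Algebra R A]
  [Algebra R B]

/-- the ring homomorphism from a tensor product defined by two ring homomorphisms -/
theorem exists_tlift (f : A →+* C) (g : B →+* C)
    (h : f.comp (algebraMap R A) = g.comp (algebraMap R B)) :
    ∃ F : A ⊗[R] B →+* C, ∀ a b, F (a ⊗ₜ b) = f a * g b := by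
  letI : Algebra R C := (f.comp (algebraMap R A)).toAlgebra
  let f' : A →ₐ[R] C := { f with commutes' := fun r => rfl }
  let g' : B →ₐ[R] C := { g with
    commutes' := fun r => (congrArg (fun F : R →+* C => F r) h).symm }
  refine ⟨(Algebra.TensorProduct.lift f' g' (fun _ _ => Commute.all _ _)).toRingHom, fun a b => ?_⟩
  exact Algebra.TensorProduct.lift_tmul f' g' _ a b

lemma tensor_ringHom_ext {F G : A ⊗[R] B →+* C} (h1 : ∀ a, F (a ⊗ₜ 1) = G (a ⊗ₜ 1))
    (h2 : ∀ b, F (1 ⊗ₜ b) = G (1 ⊗ₜ b)) : F = G := by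
  apply RingHom.ext
  intro x
  induction x using TensorProduct.induction_on with
  | zero => rw [map_zero, map_zero]
  | tmul a b =>
    have : a ⊗ₜ[R] b = (a ⊗ₜ[R] (1 : B)) * ((1 : A) ⊗ₜ[R] b) := by
      rw [Algebra.TensorProduct.tmul_mul_tmul, mul_one, one_mul]
    rw [this, map_mul, map_mul, h1, h2]
  | add x y hx hy => rw [map_add, map_add, hx, hy]

lemma balance (r : R) : (algebraMap R A r) ⊗ₜ[R] (1 : B) = (1 : A) ⊗ₜ[R] (algebraMap R B r) := by
  rw [← mul_one (algebraMap R B r), ← Algebra.smul_def, ← TensorProduct.smul_tmul,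
    Algebra.smul_def, mul_one]

end

/-- factorisation through an injective homomorphism -/
theorem exists_factor {X Y Z : Type} [CommRing X] [CommRing Y] [CommRing Z] (φ : X →+* Z)
    (ψ : Y →+* Z) (hψ : Function.Injective ψ) (h : ∀ x, ∃ y, ψ y = φ x) :
    ∃ χ : X →+* Y, ∀ x, ψ (χ x) = φ x := by
  choose χ hχ using h
  exact ⟨{ toFun := χ
           map_one' := hψ (by rw [hχ, map_one, map_one])
           map_mul' := fun a b => hψ (by rw [hχ, map_mul, map_mul, hχ, hχ])
           map_zero' := hψ (by rw [hχ, map_zero, map_zero])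
           map_add' := fun a b => hψ (by rw [hχ, map_add, map_add, hχ, hχ]) }, hχ⟩

end Pool.Agent.H920
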