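import Pool.Agent.H920.Alg.Root
import Pool.Agent.H920.Alg.TL
import Pool.Agent.H920.Alg.Ix

/-!
# The rings of the charts and of the products with the atlas
-/

set_option autoImplicit false

open TensorProduct

namespace Pool.Agent.H920

open Pool.Agent.Y939.NG

/-- The rings of the charts. -/
structure CD {k₀ : Type} (κ : Type) [Field k₀] [Field κ] [Algebra k₀ κ] (D : Dat k₀) (A : Ix → Type)
    [∀ i, CommRing (A i)] [∀ i, Algebra κ (A i)] where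
  f : ∀ i, A i →ₐ[κ] A .o
  fo : f .o = AlgHom.id κ _
  z : ∀ i, A i
  y : ∀ i, A i
  hzl : f .l (z .l) = z .o
  hyl : f .l (y .l) = y .o
  hzr : z .o * f .r (z .r) = 1
  hyr : f .r (y .r) = y .o * f .r (z .r)
  mon_l : Mon κ D.n (z .l) (y .l)
  mon_r : Mon κ D.n (z .r) (y .r)
  rel : (D.map (algebraMap k₀ κ)).val 0 (z .o) (y .o) = 0
  loc_l : ∀ a : A .o, ∃ (m : ℕ) (b : A .l), f .l (z .l) ^ m * a = f .l b
  loc_r : ∀ a : A .o, ∃ (m : ℕ) (b : A .r), f .r (z .r) ^ m * a = f .r b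
  dom : IsDomain (A .o)
  tr : ∀ Q : Polynomial κ, Polynomial.aeval (z .o) Q = 0 → Q = 0

/-- The rings of the products with the atlas. -/
structure PD {k₀ κ : Type} [Field k₀] [Field κ] [Algebra k₀ κ] {D : Dat k₀} {A : Ix → Type}
    [∀ i, CommRing (A i)] [∀ i, Algebra κ (A i)] (cd : CD κ D A) (P : Ix → Type)
    [∀ i, CommRing (P i)] [∀ i, Algebra κ (P i)] (p n₀ : ℕ) where
  fa : ∀ i, A i →ₐ[κ] P i
  g : ∀ i, P i →ₐ[κ] P .o
  go : g .o = AlgHom.id κ _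
  hfg : ∀ i, (g i).comp (fa i) = (fa .o).comp (cd.f i)
  fin : ∀ i, (fa i).toRingHom.Finite
  nzd : ∀ a : A .o, a ≠ 0 → ∀ c : P .o, fa .o a * c = 0 → c = 0
  loc_l : ∀ d : P .o, ∃ (m : ℕ) (b : P .l), fa .o (cd.f .l (cd.z .l)) ^ m * d = g .l b
  loc_r : ∀ d : P .o, ∃ (m : ℕ) (b : P .r), fa .o (cd.f .r (cd.z .r)) ^ m * d = g .r b
  st : ∀ i n, n₀ ≤ n → ∀ c : P i,
    c ^ p ^ n₀ ∈ Submodule.span κ {x | ∃ a d, x = fa i a * d ^ p ^ n}

section

variable {k₀ κ : Type} [Field k₀] [Field κ] [Algebra k₀ κ] {D : Dat k₀} {A : Ix → Type}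
  [∀ i, CommRing (A i)] [∀ i, Algebra κ (A i)] (cd : CD κ D A)

lemma CD.gen : Algebra.adjoin κ {cd.z .o, cd.f .r (cd.z .r), cd.y .o} = ⊤ := by
  rw [eq_top_iff]
  intro a _
  obtain ⟨m, b, hb⟩ := cd.loc_l a
  have h1 : a = cd.f .r (cd.z .r) ^ m * cd.f .l b := by
    rw [← hb, cd.hzl, ← mul_assoc, ← mul_pow, mul_comm (cd.f .r _), cd.hzr, one_pow, one_mul]
  rw [h1]
  refine Subalgebra.mul_mem _ (Subalgebra.pow_mem _ (Algebra.subset_adjoin (by simp)) _) ?_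
  have h2 : b ∈ Algebra.adjoin κ {cd.z .l, cd.y .l} := by
    rw [cd.mon_l.adjoin _ (by simp) (by simp)]; trivial
  have h3 : cd.f .l b ∈ (Algebra.adjoin κ {cd.z .l, cd.y .l}).map (cd.f .l) := ⟨b, h2, rfl⟩
  rw [AlgHom.map_adjoin] at h3
  refine Algebra.adjoin_mono ?_ h3
  rintro _ ⟨x, (rfl | rfl), rfl⟩
  · rw [cd.hzl]; simp
  · rw [cd.hyl]; simp

variable {P : Ix → Type} [∀ i, CommRing (P i)] [∀ i, Algebra κ (P i)] {p n₀ : ℕ}

/-- raise the exponent -/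
def PD.raise {cd : CD κ D A} (pd : PD cd P p n₀) (n₁ : ℕ) (h : n₀ ≤ n₁) : PD cd P p n₁ :=
  { pd with
    st := by
      intro i n hn c
      obtain ⟨a, rfl⟩ := Nat.exists_eq_add_of_le h
      have := pd.st i n (h.trans hn) (c ^ p ^ a)
      rwa [← pow_mul, ← pow_add, add_comm] at this }

end

end Pool.Agent.H920
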