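import Pool.Agent.H920.Alg.Stable

/-!
# Finiteness of spaces of functions with bounded poles, and constancy
-/

set_option autoImplicit false

open PowerSeries

namespace Pool.Agent.H920

variable {E : Type*} [Field E]

/-- the set of functions of `C₁` with pole order at most `m` on the second chart -/
def HH (C₁ C₂ : Subalgebra E E⟦X⟧) (W : E⟦X⟧) (m : ℕ) : Submodule E E⟦X⟧ where
  carrier := {h | h ∈ C₁ ∧ W ^ m * h ∈ C₂}
  add_mem' := by
    rintro a b ⟨ha, ha'⟩ ⟨hb, hb'⟩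
    exact ⟨C₁.add_mem ha hb, by rw [mul_add]; exact C₂.add_mem ha' hb'⟩
  zero_mem' := ⟨C₁.zero_mem, by rw [mul_zero]; exact C₂.zero_mem⟩
  smul_mem' := by
    rintro c a ⟨ha, ha'⟩
    exact ⟨C₁.smul_mem ha c, by rw [mul_smul_comm]; exact C₂.smul_mem ha' c⟩

lemma exists_bound {α : Type*} [Finite α] (f : α → ℕ) : ∃ D, ∀ a, f a ≤ D := by
  obtain ⟨D, hD⟩ := (Set.finite_range f).bddAbove
  exact ⟨D, fun a => hD ⟨a, rfl⟩⟩

section

open Polynomial in
/-- finiteness -/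
lemma finite_HH (C₁ C₂ : Subalgebra E E⟦X⟧) (Z W : E⟦X⟧) (hZW : Z * W = 1)
    (hZ : ∀ P : E[X], aeval Z P = 0 → P = 0) (hZ₁ : Z ∈ C₁)
    (G₁ : Finset E⟦X⟧) (hG₁ : ∀ g ∈ G₁, g ∈ C₁)
    (h₁ : ∀ c ∈ C₁, c ∈ Submodule.span E {f | ∃ i : ℕ, ∃ g ∈ G₁, f = Z ^ i * g})
    (G₂ : Finset E⟦X⟧) (hG₂ : ∀ g ∈ G₂, g ∈ C₂)
    (h₂ : ∀ c ∈ C₂, c ∈ Submodule.span E {f | ∃ i : ℕ, ∃ g ∈ G₂, f = W ^ i * g})
    (hloc : ∀ c ∈ C₂, ∃ m : ℕ, Z ^ m * c ∈ C₁) (m : ℕ) : Module.Finite E (HH C₁ C₂ W m) := by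
  classical
  letI : Algebra E[X] C₁ := (aeval (⟨Z, hZ₁⟩ : C₁)).toAlgebra
  have hsm : ∀ (P : E[X]) (c : C₁), ((P • c : C₁) : E⟦X⟧) = aeval Z P * c := by
    intro P c
    rw [Algebra.smul_def]
    change ((aeval (⟨Z, hZ₁⟩ : C₁) P * c : C₁) : E⟦X⟧) = _
    rw [MulMemClass.coe_mul, ← Subalgebra.aeval_coe]
  haveI : IsScalarTower E E[X] C₁ := by
    refine IsScalarTower.of_algebraMap_eq fun r => ?_
    change _ = aeval (⟨Z, hZ₁⟩ : C₁) (algebraMap E E[X] r)
    rw [AlgHom.commutes]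
  haveI : Module.Finite E[X] C₁ := by
    let s : Finset C₁ := G₁.attach.image fun g => ⟨g.1, hG₁ g.1 g.2⟩
    refine ⟨⟨s, ?_⟩⟩
    rw [eq_top_iff]
    rintro ⟨c, hc⟩ -
    have key : ∀ c ∈ Submodule.span E {f | ∃ i : ℕ, ∃ g ∈ G₁, f = Z ^ i * g}, ∀ hc : c ∈ C₁,
        (⟨c, hc⟩ : C₁) ∈ Submodule.span E[X] (s : Set C₁) := by
      intro c hc
      induction hc using Submodule.span_induction with
      | mem f hf =>
        obtain ⟨i, g, hg, rfl⟩ := hf
        intro hc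
        have : (⟨Z ^ i * g, hc⟩ : C₁) = (Polynomial.X ^ i : E[X]) • ⟨g, hG₁ g hg⟩ := by
          apply Subtype.ext
          rw [hsm, map_pow, Polynomial.aeval_X]
        rw [this]
        refine Submodule.smul_mem _ _ (Submodule.subset_span ?_)
        simp only [s, Finset.coe_image, Set.mem_image, Finset.mem_coe, Finset.mem_attach, true_and,
          Subtype.exists]
        exact ⟨g, hg, rfl⟩
      | zero => intro hc; exact Submodule.zero_mem _
      | add f g hf hg ihf ihg =>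
        intro hc
        have hf' : f ∈ C₁ := by
          have : Submodule.span E {f | ∃ i : ℕ, ∃ g ∈ G₁, f = Z ^ i * g} ≤
              Subalgebra.toSubmodule C₁ := by
            rw [Submodule.span_le]
            rintro _ ⟨i, g, hg, rfl⟩
            exact C₁.mul_mem (C₁.pow_mem hZ₁ i) (hG₁ g hg)
          exact this hf
        have hg' : g ∈ C₁ := by
          have := C₁.sub_mem hc hf'
          rwa [add_sub_cancel_left] at this
        exact Submodule.add_mem _ (ihf hf') (ihg hg')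
      | smul r f hf ihf =>
        intro hc
        have hf' : f ∈ C₁ := by
          have : Submodule.span E {f | ∃ i : ℕ, ∃ g ∈ G₁, f = Z ^ i * g} ≤
              Subalgebra.toSubmodule C₁ := by
            rw [Submodule.span_le]
            rintro _ ⟨i, g, hg, rfl⟩
            exact C₁.mul_mem (C₁.pow_mem hZ₁ i) (hG₁ g hg)
          exact this hf
        have : (⟨r • f, hc⟩ : C₁) = (Polynomial.C r : E[X]) • ⟨f, hf'⟩ := by
          apply Subtype.ext
          rw [hsm, aeval_C]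
          exact Algebra.smul_def r f
        rw [this]
        exact Submodule.smul_mem _ _ (ihf hf')
    exact key c (h₁ c hc) hc
  haveI : Module.IsTorsionFree E[X] C₁ := by
    refine Module.IsTorsionFree.of_smul_eq_zero fun P c h => ?_
    have h' := congrArg Subtype.val h
    rw [hsm] at h'
    rcases mul_eq_zero.1 h' with h3 | h3
    · exact Or.inl (hZ P h3)
    · exact Or.inr (Subtype.ext h3)
  haveI : Module.Free E[X] C₁ := Module.free_of_finite_type_torsion_free'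
  let ℬ := Module.Free.chooseBasis E[X] C₁
  let ι := Module.Free.ChooseBasisIndex E[X] C₁
  -- clear denominators of the generators of `C₂`
  have hN : ∃ N : ℕ, ∀ g ∈ G₂, Z ^ N * g ∈ C₁ := by
    have h3 : ∀ g : G₂, ∃ N : ℕ, Z ^ N * g.1 ∈ C₁ := fun g => hloc g.1 (hG₂ g.1 g.2)
    choose N hN using h3
    refine ⟨Finset.univ.sup N, fun g hg => ?_⟩
    have h4 : N ⟨g, hg⟩ ≤ Finset.univ.sup N := Finset.le_sup (Finset.mem_univ _)
    obtain ⟨a, ha⟩ := Nat.exists_eq_add_of_le h4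
    rw [ha, pow_add, mul_comm (Z ^ _), mul_assoc]
    exact C₁.mul_mem (C₁.pow_mem hZ₁ a) (hN ⟨g, hg⟩)
  obtain ⟨N, hN⟩ := hN
  have hD : ∃ D : ℕ, ∀ (g : E⟦X⟧) (hg : g ∈ G₂) (j : ι),
      (ℬ.repr ⟨Z ^ N * g, hN g hg⟩ j).natDegree ≤ D := by
    obtain ⟨D, hD⟩ := exists_bound (fun x : G₂ × ι =>
      (ℬ.repr ⟨Z ^ N * x.1.1, hN x.1.1 x.1.2⟩ x.2).natDegree)
    exact ⟨D, fun g hg j => hD (⟨g, hg⟩, j)⟩
  obtain ⟨D, hD⟩ := hD
  have hZpow : ∀ i a : ℕ, Z ^ (i + a) * W ^ i = Z ^ a := by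
    intro i a
    rw [pow_add, mul_comm (Z ^ i), mul_assoc, ← mul_pow, hZW, one_pow, mul_one]
  have key : ∀ c ∈ Submodule.span E {f | ∃ i : ℕ, ∃ g ∈ G₂, f = W ^ i * g}, ∃ d₀ : ℕ, ∀ d ≥ d₀,
      ∃ hc : Z ^ (N + d) * c ∈ C₁, ∀ j, (ℬ.repr ⟨_, hc⟩ j).natDegree ≤ d + D := by
    intro c hc
    induction hc using Submodule.span_induction with
    | mem f hf =>
      obtain ⟨i, g, hg, rfl⟩ := hf
      refine ⟨i, fun d hd => ?_⟩
      obtain ⟨a, rfl⟩ := Nat.exists_eq_add_of_le hd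
      have e1 : Z ^ (N + (i + a)) * (W ^ i * g) = Z ^ a * (Z ^ N * g) := by
        calc Z ^ (N + (i + a)) * (W ^ i * g) = (Z ^ (i + (a + N)) * W ^ i) * g := by
              rw [show N + (i + a) = i + (a + N) by ring]; ring
          _ = Z ^ a * (Z ^ N * g) := by rw [hZpow, pow_add]; ring
      have hc : Z ^ (N + (i + a)) * (W ^ i * g) ∈ C₁ := by
        rw [e1]
        exact C₁.mul_mem (C₁.pow_mem hZ₁ a) (hN g hg)
      refine ⟨hc, fun j => ?_⟩
      have e2 : (⟨_, hc⟩ : C₁) = (Polynomial.X ^ a : E[X]) • ⟨Z ^ N * g, hN g hg⟩ := by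
        apply Subtype.ext
        rw [hsm, map_pow, Polynomial.aeval_X]
        exact e1
      rw [e2, map_smul, Finsupp.smul_apply, smul_eq_mul]
      refine natDegree_mul_le.trans ?_
      have := hD g hg j
      have h3 := natDegree_X_pow_le (R := E) a
      omega
    | zero =>
      refine ⟨0, fun d _ => ?_⟩
      have hc : Z ^ (N + d) * (0 : E⟦X⟧) ∈ C₁ := by rw [mul_zero]; exact C₁.zero_mem
      refine ⟨hc, fun j => ?_⟩
      have e2 : (⟨_, hc⟩ : C₁) = 0 := Subtype.ext (mul_zero _)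
      rw [e2]
      simp
    | add f g _ _ ihf ihg =>
      obtain ⟨d₁, hd₁⟩ := ihf
      obtain ⟨d₂, hd₂⟩ := ihg
      refine ⟨max d₁ d₂, fun d hd => ?_⟩
      obtain ⟨hf, hf'⟩ := hd₁ d (le_trans (le_max_left _ _) hd)
      obtain ⟨hg, hg'⟩ := hd₂ d (le_trans (le_max_right _ _) hd)
      have hc : Z ^ (N + d) * (f + g) ∈ C₁ := by rw [mul_add]; exact C₁.add_mem hf hg
      refine ⟨hc, fun j => ?_⟩
      have e2 : (⟨_, hc⟩ : C₁) = ⟨_, hf⟩ + ⟨_, hg⟩ := Subtype.ext (mul_add _ _ _)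
      rw [e2, map_add, Finsupp.add_apply]
      exact (natDegree_add_le _ _).trans (max_le (hf' j) (hg' j))
    | smul r f _ ihf =>
      obtain ⟨d₁, hd₁⟩ := ihf
      refine ⟨d₁, fun d hd => ?_⟩
      obtain ⟨hf, hf'⟩ := hd₁ d hd
      have hc : Z ^ (N + d) * (r • f) ∈ C₁ := by rw [mul_smul_comm]; exact C₁.smul_mem hf r
      refine ⟨hc, fun j => ?_⟩
      have e2 : (⟨_, hc⟩ : C₁) = (Polynomial.C r : E[X]) • ⟨_, hf⟩ := by
        apply Subtype.ext
        rw [hsm, aeval_C, ← Algebra.smul_def]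
        exact mul_smul_comm _ _ _
      rw [e2, map_smul, Finsupp.smul_apply, smul_eq_mul]
      exact (natDegree_C_mul_le _ _).trans (hf' j)
  -- degree bound
  have hbound : ∀ (h : E⟦X⟧) (hh : h ∈ C₁), W ^ m * h ∈ C₂ → ∀ j,
      (ℬ.repr ⟨h, hh⟩ j).natDegree ≤ m + D := by
    intro h hh hh' j
    obtain ⟨d₀, hd₀⟩ := key _ (h₂ _ hh')
    obtain ⟨hc, hc'⟩ := hd₀ (d₀ + m) (Nat.le_add_right _ _)
    have e1 : Z ^ (N + (d₀ + m)) * (W ^ m * h) = Z ^ (N + d₀) * h := by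
      rw [show N + (d₀ + m) = m + (N + d₀) by ring, ← mul_assoc, hZpow]
    have e2 : (⟨_, hc⟩ : C₁) = (Polynomial.X ^ (N + d₀) : E[X]) • ⟨h, hh⟩ := by
      apply Subtype.ext
      rw [hsm, map_pow, Polynomial.aeval_X]
      exact e1
    have h3 := hc' j
    rw [e2, map_smul, Finsupp.smul_apply, smul_eq_mul] at h3
    by_cases h0 : ℬ.repr ⟨h, hh⟩ j = 0
    · rw [h0]; simp
    · rw [natDegree_mul (pow_ne_zero _ Polynomial.X_ne_zero) h0, natDegree_X_pow] at h3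
      omega
  -- the injection
  let φ : HH C₁ C₂ W m →ₗ[E] (ι → Fin (m + D + 1) → E) :=
    { toFun := fun h j i => (ℬ.repr ⟨h.1, h.2.1⟩ j).coeff i
      map_add' := by
        intro a b
        funext j i
        have e : (⟨((a + b : HH C₁ C₂ W m) : E⟦X⟧), (a + b).2.1⟩ : C₁) =
          ⟨a.1, a.2.1⟩ + ⟨b.1, b.2.1⟩ := rfl
        rw [e, map_add, Finsupp.add_apply, coeff_add]
        rfl
      map_smul' := by
        intro r a
        funext j i
        have e : (⟨((r • a : HH C₁ C₂ W m) : E⟦X⟧), (r • a).2.1⟩ : C₁) =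
          (Polynomial.C r : E[X]) • ⟨a.1, a.2.1⟩ := by
          apply Subtype.ext
          rw [hsm, aeval_C, ← Algebra.smul_def]
          rfl
        rw [e, map_smul, Finsupp.smul_apply, smul_eq_mul, Polynomial.coeff_C_mul]
        rfl }
  refine Module.Finite.of_injective φ ?_
  intro a b hab
  apply Subtype.ext
  have h3 : (⟨a.1, a.2.1⟩ : C₁) = ⟨b.1, b.2.1⟩ := by
    apply ℬ.repr.injective
    ext j i
    by_cases hi : i < m + D + 1
    · exact congrFun (congrFun hab j) ⟨i, hi⟩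
    · rw [coeff_eq_zero_of_natDegree_lt (lt_of_le_of_lt (hbound a.1 a.2.1 a.2.2 j) (by omega)),
        coeff_eq_zero_of_natDegree_lt (lt_of_le_of_lt (hbound b.1 b.2.1 b.2.2 j) (by omega))]
  exact congrArg (fun x : C₁ => (x : E⟦X⟧)) h3

end

/-- a finite-dimensional algebra of power series consists of constants -/
lemma const_of_finite (S : Subalgebra E E⟦X⟧) [Module.Finite E S] (c : E⟦X⟧) (hc : c ∈ S) :
    c = PowerSeries.C (constantCoeff c) := by
  have hS : IsField S := isField_of_isIntegral_of_isField' (Field.toIsField E)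
  letI : Field S := hS.toField
  let f : S →+* E := (constantCoeff (R := E)).comp S.val.toRingHom
  have h1 : (⟨c, hc⟩ : S) = algebraMap E S (constantCoeff c) := by
    apply f.injective
    change constantCoeff c = constantCoeff (algebraMap E E⟦X⟧ (constantCoeff c))
    rw [PowerSeries.algebraMap_apply]
    simp
  have h2 := congrArg Subtype.val h1
  exact h2

section main

variable {k : Type*} [Field k] [Algebra k E] {p : ℕ} [Fact p.Prime] [CharP E p]

open Polynomial in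
/-- **Main algebraic theorem.** Two rings of functions on the charts which are stable under
coefficientwise linear maps are spanned by series with coefficients in `k`, and their intersection
consists of constants. -/
theorem constancy (hk : ∀ e : E, (∀ n, ∃ a, a ^ p ^ n = e) → ∃ c : k, algebraMap k E c = e)
    (C₁ C₂ : Subalgebra E E⟦X⟧) (z w : k⟦X⟧) (hzw : z * w = 1)
    (hZ : ∀ P : E[X], aeval (map (algebraMap k E) z) P = 0 → P = 0)
    (hZ₁ : map (algebraMap k E) z ∈ C₁)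
    (G₁ : Finset E⟦X⟧) (hG₁ : ∀ g ∈ G₁, g ∈ C₁)
    (h₁ : ∀ c ∈ C₁, c ∈ Submodule.span E
      {f | ∃ i : ℕ, ∃ g ∈ G₁, f = map (algebraMap k E) z ^ i * g})
    (G₂ : Finset E⟦X⟧) (hG₂ : ∀ g ∈ G₂, g ∈ C₂)
    (h₂ : ∀ c ∈ C₂, c ∈ Submodule.span E
      {f | ∃ i : ℕ, ∃ g ∈ G₂, f = map (algebraMap k E) w ^ i * g})
    (hloc₁ : ∀ c ∈ C₁, ∃ m : ℕ, map (algebraMap k E) w ^ m * c ∈ C₂)
    (hloc₂ : ∀ c ∈ C₂, ∃ m : ℕ, map (algebraMap k E) z ^ m * c ∈ C₁)
    (hst₁ : ∀ n (l : E →+ E), FrobLin p n l → ∀ h ∈ C₁, coefMap l h ∈ C₁)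
    (hst₂ : ∀ n (l : E →+ E), FrobLin p n l → ∀ h ∈ C₂, coefMap l h ∈ C₂)
    (hkp : ∀ (c : k) (n : ℕ), ∃ a : E, a ^ p ^ n = algebraMap k E c) :
    (∀ c ∈ C₁, c ∈ Submodule.span E {f | f ∈ C₁ ∧ ∃ g : k⟦X⟧, map (algebraMap k E) g = f}) ∧
    (∀ c ∈ C₂, c ∈ Submodule.span E {f | f ∈ C₂ ∧ ∃ g : k⟦X⟧, map (algebraMap k E) g = f}) ∧
    ∀ c, c ∈ C₁ → c ∈ C₂ → c = PowerSeries.C (constantCoeff c) := by
  set Z := map (algebraMap k E) z with hZdef
  set W := map (algebraMap k E) w with hWdef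
  have hZW : Z * W = 1 := by rw [hZdef, hWdef, ← map_mul, hzw, map_one]
  have hfin := finite_HH C₁ C₂ Z W hZW hZ hZ₁ G₁ hG₁ h₁ G₂ hG₂ h₂ hloc₂
  have hWpow : ∀ m, W ^ m = map (algebraMap k E) (w ^ m) := fun m => by rw [map_pow]
  have hstH : ∀ m n (l : E →+ E), FrobLin p n l → ∀ h ∈ HH C₁ C₂ W m, coefMap l h ∈ HH C₁ C₂ W m := by
    intro m n l hl h hh
    refine ⟨hst₁ n l hl h hh.1, ?_⟩
    have : coefMap l (W ^ m * h) = W ^ m * coefMap l h := by
      apply coefMap_mul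
      intro i a
      rw [hWpow, PowerSeries.coeff_map]
      obtain ⟨b, hb⟩ := hkp (coeff i (w ^ m)) n
      rw [← hb]
      exact hl b a
    rw [← this]
    exact hst₂ n l hl _ hh.2
  have hdesc : ∀ m, ∀ h ∈ HH C₁ C₂ W m, h ∈ Submodule.span E
      {f | f ∈ HH C₁ C₂ W m ∧ ∃ g : k⟦X⟧, map (algebraMap k E) g = f} := by
    intro m
    have := hfin m
    exact descent hk (HH C₁ C₂ W m) (hstH m)
  refine ⟨fun c hc => ?_, fun c hc => ?_, fun c hc hc' => ?_⟩
  · obtain ⟨m, hm⟩ := hloc₁ c hc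
    refine Submodule.span_mono ?_ (hdesc m c ⟨hc, hm⟩)
    rintro f ⟨hf, hf'⟩
    exact ⟨hf.1, hf'⟩
  · obtain ⟨m, hm⟩ := hloc₂ c hc
    have e : W ^ m * (Z ^ m * c) = c := by
      rw [← mul_assoc, ← mul_pow, mul_comm W, hZW, one_pow, one_mul]
    have h3 := hdesc m (Z ^ m * c) ⟨hm, by rw [e]; exact hc⟩
    have h4 : ∀ f ∈ Submodule.span E {f | f ∈ HH C₁ C₂ W m ∧ ∃ g : k⟦X⟧, map (algebraMap k E) g = f},
        W ^ m * f ∈ Submodule.span E {f | f ∈ C₂ ∧ ∃ g : k⟦X⟧, map (algebraMap k E) g = f} := by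
      intro f hf
      induction hf using Submodule.span_induction with
      | mem f hf =>
        obtain ⟨hf, g, rfl⟩ := hf
        refine Submodule.subset_span ⟨hf.2, w ^ m * g, ?_⟩
        rw [map_mul, map_pow]
      | zero => rw [mul_zero]; exact Submodule.zero_mem _
      | add f g _ _ hf hg => rw [mul_add]; exact Submodule.add_mem _ hf hg
      | smul r f _ hf => rw [mul_smul_comm]; exact Submodule.smul_mem _ _ hf
    rw [← e]
    exact h4 _ h3
  · have h0 := hfin 0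
    have hS : Module.Finite E (C₁ ⊓ C₂ : Subalgebra E E⟦X⟧) := by
      have e : Subalgebra.toSubmodule (C₁ ⊓ C₂) = HH C₁ C₂ W 0 := by
        ext x
        change x ∈ C₁ ⊓ C₂ ↔ x ∈ C₁ ∧ W ^ 0 * x ∈ C₂
        rw [pow_zero, one_mul]
        exact Algebra.mem_inf
      have : Module.Finite E (Subalgebra.toSubmodule (C₁ ⊓ C₂)) := by rw [e]; exact h0
      exact this
    exact const_of_finite (C₁ ⊓ C₂) c (Algebra.mem_inf.2 ⟨hc, hc'⟩)

end main

end Pool.Agent.H920
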