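import Pool.Agent.H920.Alg.Root

/-!
# Points of finite algebras over the chart
-/

set_option autoImplicit false

open TensorProduct PowerSeries

namespace Pool.Agent.H920

open Pool.Agent.Y939.NG

/-- a point of the chart lifts to a finite algebra -/
theorem exists_point {k : Type} [Field k] {D : Dat k} (B : Subalgebra k k⟦X⟧)
    (t : D.A 0 →ₐ[k] k⟦X⟧) (ht : Function.Injective t) (hx : t (D.x 0) ∈ B) (hy : t (D.y 0) ∈ B)
    (G' : Finset k⟦X⟧) (hG' : ∀ g ∈ G', g ∈ B)
    (hfin : ∀ b ∈ B, b ∈ Submodule.span k {f | ∃ i : ℕ, ∃ g ∈ G', f = t (D.x 0) ^ i * g})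
    (a b : k) (hab : D.val 0 a b = 0) : ∃ (k' : Type) (_ : Field k') (_ : Algebra k k')
    (_ : Module.Finite k k') (π : B →ₐ[k] k'), π ⟨t (D.x 0), hx⟩ = algebraMap k k' a ∧
      π ⟨t (D.y 0), hy⟩ = algebraMap k k' b := by
  classical
  have hall : ∀ c, t c ∈ B := by
    intro c
    have hc : c ∈ Algebra.adjoin k {D.x 0, D.y 0} := by
      rw [(mon_A D 0).adjoin _ (by simp) (by simp)]; trivial
    have h1 : t c ∈ (Algebra.adjoin k {D.x 0, D.y 0}).map t := ⟨c, hc, rfl⟩
    rw [AlgHom.map_adjoin] at h1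
    refine Algebra.adjoin_le ?_ h1
    rintro _ ⟨x, (rfl | rfl), rfl⟩
    · exact hx
    · exact hy
  let φ : D.A 0 →ₐ[k] B := t.codRestrict B hall
  letI : Algebra (D.A 0) B := φ.toRingHom.toAlgebra
  haveI : IsScalarTower k (D.A 0) B := IsScalarTower.of_algebraMap_eq fun r => (φ.commutes r).symm
  have hspan : ∀ b : B, b ∈ Submodule.span k
      {f : B | ∃ i : ℕ, ∃ g : G', f = φ (D.x 0) ^ i * ⟨g.1, hG' g.1 g.2⟩} := by
    intro b
    have h1 := mem_span_sub B {f | ∃ i : ℕ, ∃ g ∈ G', f = t (D.x 0) ^ i * g} (by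
      rintro _ ⟨i, g, hg, rfl⟩
      exact B.mul_mem (B.pow_mem hx i) (hG' g hg)) b (hfin b b.2)
    refine Submodule.span_mono ?_ h1
    rintro s ⟨i, g, hg, hs⟩
    exact ⟨i, ⟨g, hg⟩, Subtype.ext hs⟩
  haveI hmf : Module.Finite (D.A 0) B := by
    refine ⟨⟨Finset.univ.image fun g : G' => (⟨g.1, hG' g.1 g.2⟩ : B), ?_⟩⟩
    rw [eq_top_iff]
    intro b _
    have h2 := hspan b
    induction h2 using Submodule.span_induction with
    | mem x hx =>
      obtain ⟨i, g, rfl⟩ := hx
      have : φ (D.x 0) ^ i * (⟨g.1, hG' g.1 g.2⟩ : B) = (D.x 0 ^ i) • (⟨g.1, hG' g.1 g.2⟩ : B) := by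
        rw [Algebra.smul_def, map_pow]
        rfl
      rw [this]
      exact Submodule.smul_mem _ _ (Submodule.subset_span (by simp))
    | zero => exact Submodule.zero_mem _
    | add x y _ _ hx hy => exact Submodule.add_mem _ (hx trivial) (hy trivial)
    | smul r x _ hx =>
      rw [← algebraMap_smul (D.A 0) r x]
      exact Submodule.smul_mem _ _ (hx trivial)
  let e : D.A 0 →ₐ[k] k := D.lift 0 a b hab
  have hes : Function.Surjective e := fun c => ⟨algebraMap k _ c, e.commutes c⟩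
  haveI hmax : (RingHom.ker e).IsMaximal := RingHom.ker_isMaximal_of_surjective _ hes
  have hint : Algebra.IsIntegral (D.A 0) B := Algebra.IsIntegral.of_finite _ _
  obtain ⟨M, hM, hM'⟩ := Ideal.exists_ideal_over_maximal_of_isIntegral (S := B) (RingHom.ker e) (by
    intro c hc
    have h1 : φ c = 0 := hc
    have h2 : t c = 0 := congrArg Subtype.val h1
    have h3 : c = 0 := ht (by rw [h2, map_zero])
    rw [h3]
    exact Ideal.zero_mem _)
  letI := Ideal.Quotient.field M
  let π : B →ₐ[k] (B ⧸ M) := Ideal.Quotient.mkₐ k M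
  have hπ : ∀ c : D.A 0, π (φ c) = algebraMap k (B ⧸ M) (e c) := by
    intro c
    have h1 : c - algebraMap k _ (e c) ∈ RingHom.ker e := by
      rw [RingHom.mem_ker, map_sub, AlgHom.commutes]
      exact sub_self _
    rw [← hM'] at h1
    have h2 : φ (c - algebraMap k _ (e c)) ∈ M := h1
    have h3 : π (φ (c - algebraMap k _ (e c))) = 0 := Ideal.Quotient.eq_zero_iff_mem.2 h2
    rw [map_sub, map_sub, AlgHom.commutes, AlgHom.commutes, sub_eq_zero] at h3
    exact h3
  have h1 : φ (D.x 0) = ⟨t (D.x 0), hx⟩ := rfl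
  have h2 : φ (D.y 0) = ⟨t (D.y 0), hy⟩ := rfl
  refine ⟨B ⧸ M, inferInstance, inferInstance, ?_, π, ?_, ?_⟩
  · refine ⟨⟨Finset.univ.image fun g : G' => π (⟨g.1, hG' g.1 g.2⟩ : B), ?_⟩⟩
    rw [eq_top_iff]
    intro c _
    obtain ⟨b, rfl⟩ := Ideal.Quotient.mk_surjective c
    have h2 := hspan b
    change π b ∈ _
    induction h2 using Submodule.span_induction with
    | mem x hx =>
      obtain ⟨i, g, rfl⟩ := hx
      rw [map_mul, map_pow, hπ, ← map_pow, ← Algebra.smul_def]
      exact Submodule.smul_mem _ _ (Submodule.subset_span (by simp))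
    | zero => rw [map_zero]; exact Submodule.zero_mem _
    | add x y _ _ hx hy => rw [map_add]; exact Submodule.add_mem _ (hx trivial) (hy trivial)
    | smul r x _ hx =>
      rw [map_smul]
      exact Submodule.smul_mem _ _ (hx trivial)
  · rw [← h1, hπ]
    congr 1
    exact D.lift_x 0 _ _ _
  · rw [← h2, hπ]
    congr 1
    exact D.lift_y 0 _ _ _

end Pool.Agent.H920
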