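import Pool.Agent.H920.Alg.Data
import Pool.Agent.H920.Alg.Pt

/-!
# The main construction: homomorphisms from the rings of the products to constant extensions of
rings of power series
-/

set_option autoImplicit false

open TensorProduct PowerSeries

namespace Pool.Agent.H920

open Pool.Agent.Y939.NG

noncomputable section

variable {k₀ κ k E : Type} [Field k₀] [Field κ] [Field k] [Field E] [Algebra k₀ κ] [Algebra k₀ k]
  [Algebra κ E] [Algebra k E] {D : Dat k₀} {A : Ix → Type}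
  [∀ i, CommRing (A i)] [∀ i, Algebra κ (A i)] {P : Ix → Type}
  [∀ i, CommRing (P i)] [∀ i, Algebra κ (P i)] {p n₁ : ℕ}

/-- The result of the construction. -/
structure Out {cd : CD κ D A} (pd : PD cd P p n₁) (e : P .o →ₐ[κ] E) (k : Type) [Field k]
    [Algebra k₀ k] [Algebra k E] where
  B : Ix → Subalgebra k k⟦X⟧
  hB : ∀ i, B i ≤ B .o
  hinf : B .l ⊓ B .r = ⊥
  Ψ : ∀ i, P i →+* E ⊗[k] B i
  ζ : ∀ i, B i
  υ : ∀ i, B i
  hΨκ : ∀ i c, Ψ i (algebraMap κ _ c) = ((algebraMap κ E c) ^ p ^ n₁) ⊗ₜ 1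
  hΨg : ∀ i c, Phi E (B i) (Ψ i c) = Phi E (B .o) (Ψ .o (pd.g i c))
  hΨe : ∀ c, constantCoeff (Phi E (B .o) (Ψ .o c)) = (e c) ^ p ^ n₁
  hΨz : ∀ i, Ψ i (pd.fa i (cd.z i)) = 1 ⊗ₜ (ζ i ^ p ^ n₁)
  hΨy : ∀ i, Ψ i (pd.fa i (cd.y i)) = 1 ⊗ₜ (υ i ^ p ^ n₁)
  pts : ∀ a b : k, D.val 0 a b = 0 → ∃ (k' : Type) (_ : Field k') (_ : Algebra k k')
    (_ : Module.Finite k k') (π : B .l →ₐ[k] k'), π (ζ .l) = algebraMap k k' a ∧
      π (υ .l) = algebraMap k k' b

variable [Fact p.Prime] [CharP κ p] [Algebra.IsAlgebraic κ E] (hD : D.Good) {cd : CD κ D A}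
  (pd : PD cd P p n₁)

/-- the subalgebras -/
abbrev PD.N (i : Ix) : Subalgebra κ (P i) := NQ (pd.fa i) (p ^ n₁)

/-- the restriction homomorphisms -/
def PD.gN (i : Ix) : pd.N i →ₐ[κ] pd.N .o :=
  ((pd.g i).comp (pd.N i).val).codRestrict (pd.N .o)
    (fun x => map_mem_NQ (pd.hfg i) (p ^ n₁) x.2)

omit [Fact p.Prime] [CharP κ p] in
lemma PD.gN_coe (i : Ix) (x : pd.N i) : ((pd.gN i x : pd.N .o) : P .o) = pd.g i x := rfl

omit [Fact p.Prime] [CharP κ p] in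
lemma PD.gN_alg (i : Ix) (a : A i) : pd.gN i ⟨pd.fa i a, alg_mem_NQ _ _ a⟩ =
    ⟨pd.fa .o (cd.f i a), alg_mem_NQ _ _ _⟩ := by
  apply Subtype.ext
  rw [pd.gN_coe]
  exact congrArg (fun F : A i →ₐ[κ] P .o => F a) (pd.hfg i)

include hD in
/-- the Taylor homomorphism on the subalgebra of the intersection of the charts -/
theorem exists_tau (e : P .o →ₐ[κ] E) (hy₀ : e (pd.fa .o (cd.y .o)) ≠ 0) :
    ∃ τ : pd.N .o →ₐ[κ] E⟦X⟧,
      τ ⟨pd.fa .o (cd.z .o), alg_mem_NQ _ _ _⟩ = PowerSeries.C (e (pd.fa .o (cd.z .o))) + X ∧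
      ∀ c : pd.N .o, constantCoeff (τ c) = e (c : P .o) := by
  classical
  have hft : Algebra.FiniteType κ (pd.N .o) := by
    refine NQ_finiteType (p := p) n₁ (pd.fa .o) (pd.fin .o)
      {cd.z .o, cd.f .r (cd.z .r), cd.y .o} ?_
    rw [← cd.gen]
    simp
  have hnoeth : IsNoetherianRing (E ⊗[κ] pd.N .o) := Algebra.FiniteType.isNoetherianRing E _
  let h : A .o →ₐ[κ] pd.N .o := (pd.fa .o).codRestrict (pd.N .o) (alg_mem_NQ _ _)
  let e' : pd.N .o →ₐ[κ] E := e.comp (pd.N .o).val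
  have hpow : ∀ c : pd.N .o, c ∈ Submodule.span κ {c | ∃ a d, c = h a * d ^ p} := by
    intro c
    have h1 := NQ_pow (pd.fa .o) (pd.st .o) 1 c.2
    have h2 := mem_span_sub (pd.N .o) {x | ∃ a, ∃ d ∈ NQ (pd.fa .o) (p ^ n₁),
        x = pd.fa .o a * d ^ p ^ 1} (by
      rintro _ ⟨a, d, hd, rfl⟩
      exact Subalgebra.mul_mem _ (alg_mem_NQ _ _ a) (Subalgebra.pow_mem _ hd _)) c h1
    refine Submodule.span_mono ?_ h2
    rintro s ⟨a, d, hd, hs⟩
    refine ⟨a, ⟨d, hd⟩, ?_⟩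
    apply Subtype.ext
    rw [hs, pow_one]
    rfl
  obtain ⟨T, hT1, hT2, -⟩ := exists_taylorN (p := p) (hD.map (algebraMap k₀ κ)) hnoeth h e'
    (cd.z .o) (cd.f .r (cd.z .r)) (cd.y .o) cd.gen (Or.inl cd.hzr) cd.rel hy₀ hpow (by
      intro Q hQ c hc
      apply Subtype.ext
      refine pd.nzd _ ?_ _ (congrArg Subtype.val hc)
      intro h0
      exact hQ (cd.tr Q h0))
  refine ⟨(T.restrictScalars κ).comp
    (Algebra.TensorProduct.includeRight : pd.N .o →ₐ[κ] E ⊗[κ] pd.N .o), hT1, ?_⟩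
  intro c
  change constantCoeff (T (1 ⊗ₜ c)) = _
  rw [hT2, evE_tmul, one_mul]
  rfl

/-- a function on the index set -/
def ixf {α : Type} (a b c : α) : Ix → α
  | .o => a
  | .l => b
  | .r => c

variable [Algebra k₀ E] [IsScalarTower k₀ k E] [IsScalarTower k₀ κ E]

omit [Algebra k₀ k] [Algebra k₀ E] [IsScalarTower k₀ k E] [Algebra κ E] in
lemma constantCoeff_map' (f : k⟦X⟧) : constantCoeff (map (algebraMap k E) f) =
    algebraMap k E (constantCoeff f) := by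
  rw [← coeff_zero_eq_constantCoeff_apply, ← coeff_zero_eq_constantCoeff_apply, coeff_map]

lemma map_eq_C (z₀ : k) : map (algebraMap k E) (PowerSeries.C z₀ + X) =
    PowerSeries.C (algebraMap k E z₀) + X := by
  rw [map_add, map_C, map_X]

include hD in
/-- the expansion of the coordinate function `y` has coefficients in `k` -/
theorem map_yk [CharP k p] (z₀ y₀ : k) (h0 : (D.map (algebraMap k₀ k)).val 0 z₀ y₀ = 0) (hy₀ : y₀ ≠ 0)
    (Y : E⟦X⟧) (hY : (D.map (algebraMap k₀ κ)).val 0 (map (algebraMap k E) (PowerSeries.C z₀ + X)) Y = 0)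
    (hY0 : constantCoeff Y = algebraMap k E y₀) :
    ∃ t : (D.map (algebraMap k₀ k)).A 0 →ₐ[k] k⟦X⟧,
      t ((D.map (algebraMap k₀ k)).x 0) = PowerSeries.C z₀ + X ∧
      Y = map (algebraMap k E) (t ((D.map (algebraMap k₀ k)).y 0)) ∧
      constantCoeff (t ((D.map (algebraMap k₀ k)).y 0)) = y₀ ∧ Function.Injective t := by
  obtain ⟨t, ht1, ht2, ht3⟩ := exists_tk (p := p) (hD.map (algebraMap k₀ k)) z₀ y₀ h0 hy₀
  refine ⟨t, ht1, ?_, ht2, ht3⟩
  have h1 : (D.map (algebraMap k₀ k)).val 0 (t ((D.map (algebraMap k₀ k)).x 0))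
      (t ((D.map (algebraMap k₀ k)).y 0)) = 0 := by
    rw [← val_map_hom, Dat.rel, map_zero]
  rw [ht1] at h1
  have h2 : (D.map (algebraMap k₀ k)).val 0 (map (algebraMap k E) (PowerSeries.C z₀ + X))
      (map (algebraMap k E) (t ((D.map (algebraMap k₀ k)).y 0))) = 0 := by
    have h3 := val_map_hom (D.map (algebraMap k₀ k)) 0 (PowerSeries.mapAlgHom (Algebra.ofId k E))
      (PowerSeries.C z₀ + X) (t ((D.map (algebraMap k₀ k)).y 0))
    rw [h1, map_zero] at h3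
    exact h3.symm
  rw [val_map] at h2 hY
  refine val_root_unique hD 0 _ _ _ hY h2 ?_ ?_
  · rw [hY0, constantCoeff_map', ht2]
  · rw [constantCoeff_map', ht2]
    exact (map_ne_zero _).2 hy₀

include hD in
theorem exists_out [CharP k p] [CharP E p]
    (hk : ∀ e : E, (∀ n, ∃ a, a ^ p ^ n = e) → ∃ c : k, algebraMap k E c = e)
    (hkp : ∀ (c : k) (n : ℕ), ∃ a : E, a ^ p ^ n = algebraMap k E c)
    (e : P .o →ₐ[κ] E) (z₀ y₀ : k) (hz₀ : z₀ ≠ 0) (hy₀ : y₀ ≠ 0)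
    (hez : e (pd.fa .o (cd.z .o)) = algebraMap k E z₀)
    (hey : e (pd.fa .o (cd.y .o)) = algebraMap k E y₀) : Nonempty (Out pd e k) := by
  classical
  have h0 : (D.map (algebraMap k₀ k)).val 0 z₀ y₀ = 0 := by
    apply (algebraMap k E).injective
    rw [map_zero, ← Algebra.ofId_apply, val_map_hom, Algebra.ofId_apply, Algebra.ofId_apply, val_map,
      ← hez, ← hey]
    have h1 := val_map_hom (D.map (algebraMap k₀ κ)) 0 (e.comp (pd.fa .o)) (cd.z .o) (cd.y .o)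
    rw [cd.rel, map_zero, val_map] at h1
    exact h1.symm
  obtain ⟨τ, hτz, hτc⟩ := exists_tau hD pd e (by rw [hey]; exact (map_ne_zero _).2 hy₀)
  set zk : k⟦X⟧ := PowerSeries.C z₀ + X with hzk
  set wk : k⟦X⟧ := zk⁻¹ with hwk
  have hzw : zk * wk = 1 := PowerSeries.mul_inv_cancel _ (by rw [hzk]; simpa using hz₀)
  have hτz' : τ ⟨pd.fa .o (cd.z .o), alg_mem_NQ _ _ _⟩ = map (algebraMap k E) zk := by
    rw [hτz, hez, hzk, map_add, map_C, map_X]
  let h : A .o →ₐ[κ] pd.N .o := (pd.fa .o).codRestrict (pd.N .o) (alg_mem_NQ _ _)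
  have hh : ∀ a, h a = ⟨pd.fa .o a, alg_mem_NQ _ _ a⟩ := fun a => rfl
  obtain ⟨t, ht1, ht2, ht3, ht4⟩ := map_yk (κ := κ) (p := p) hD z₀ y₀ h0 hy₀ (τ (h (cd.y .o))) (by
    rw [← hzk, ← hτz', ← hh]
    have h1 := val_map_hom (D.map (algebraMap k₀ κ)) 0 (τ.comp h) (cd.z .o) (cd.y .o)
    rw [cd.rel, map_zero] at h1
    exact h1.symm) (by rw [hτc]; exact hey)
  set yk : k⟦X⟧ := t ((D.map (algebraMap k₀ k)).y 0) with hyk
  let ζ : Ix → k⟦X⟧ := ixf zk zk wk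
  let υ : Ix → k⟦X⟧ := ixf yk yk (yk * wk)
  have hwr : τ (h (cd.f .r (cd.z .r))) = map (algebraMap k E) wk := by
    have e1 : map (algebraMap k E) zk * τ (h (cd.f .r (cd.z .r))) = 1 := by
      rw [← hτz', ← hh, ← map_mul, ← map_mul, cd.hzr, map_one, map_one]
    have e2 : map (algebraMap k E) zk * map (algebraMap k E) wk = 1 := by
      rw [← map_mul, hzw, map_one]
    calc τ (h (cd.f .r (cd.z .r))) =
          (map (algebraMap k E) zk * map (algebraMap k E) wk) * τ (h (cd.f .r (cd.z .r))) := by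
            rw [e2, one_mul]
      _ = map (algebraMap k E) wk * (map (algebraMap k E) zk * τ (h (cd.f .r (cd.z .r)))) := by ring
      _ = _ := by rw [e1, mul_one]
  let τi : ∀ i, pd.N i →ₐ[κ] E⟦X⟧ := fun i => τ.comp (pd.gN i)
  have hζ : ∀ i, τi i ⟨pd.fa i (cd.z i), alg_mem_NQ _ _ _⟩ = map (algebraMap k E) (ζ i) := by
    intro i
    change τ (pd.gN i _) = _
    rw [pd.gN_alg, ← hh]
    cases i
    · rw [cd.fo]; exact hτz'
    · rw [cd.hzl]; exact hτz'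
    · exact hwr
  have hυ : ∀ i, τi i ⟨pd.fa i (cd.y i), alg_mem_NQ _ _ _⟩ = map (algebraMap k E) (υ i) := by
    intro i
    change τ (pd.gN i _) = _
    rw [pd.gN_alg, ← hh]
    cases i
    · rw [cd.fo]; exact ht2
    · rw [cd.hyl]; exact ht2
    · rw [cd.hyr, map_mul, map_mul, hwr, ht2]
      exact (map_mul _ _ _).symm
  let C : Ix → Subalgebra E E⟦X⟧ := fun i => CC (τi i)
  have hgo : ∀ x, pd.gN .o x = x := by
    intro x
    apply Subtype.ext
    rw [pd.gN_coe, pd.go]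
    rfl
  have hCle : ∀ i, C i ≤ C .o := by
    intro i f hf
    have hf' : f ∈ Submodule.span E (Set.range (τi i)) := hf
    refine (Submodule.span_le (p := Subalgebra.toSubmodule (C .o))).2 ?_ hf'
    rintro _ ⟨x, rfl⟩
    have : τi i x = τi .o (pd.gN i x) := by
      change τ (pd.gN i x) = τ (pd.gN .o (pd.gN i x))
      rw [hgo]
    rw [this]
    exact apply_mem_CC (τi .o) _
  have hζC : ∀ i, map (algebraMap k E) (ζ i) ∈ C i := fun i => by
    rw [← hζ i]; exact apply_mem_CC _ _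
  have hυC : ∀ i, map (algebraMap k E) (υ i) ∈ C i := fun i => by
    rw [← hυ i]; exact apply_mem_CC _ _
  -- localisation
  have hlocN_l : ∀ x : pd.N .o, ∃ (m : ℕ) (x' : pd.N .l),
      map (algebraMap k E) zk ^ m * τi .o x = τi .l x' := by
    intro x
    obtain ⟨m, x', hx', h1⟩ := NQ_loc (pd.hfg .l) (p ^ n₁) (cd.z .l) cd.loc_l pd.loc_l x x.2
    refine ⟨m, ⟨x', hx'⟩, ?_⟩
    have h2 : h (cd.f .l (cd.z .l)) ^ m * x = pd.gN .l ⟨x', hx'⟩ := Subtype.ext h1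
    change _ * τ (pd.gN .o x) = τ (pd.gN .l _)
    rw [hgo, ← h2, map_mul, map_pow, cd.hzl, hh, hτz']
  have hlocN_r : ∀ x : pd.N .o, ∃ (m : ℕ) (x' : pd.N .r),
      map (algebraMap k E) wk ^ m * τi .o x = τi .r x' := by
    intro x
    obtain ⟨m, x', hx', h1⟩ := NQ_loc (pd.hfg .r) (p ^ n₁) (cd.z .r) cd.loc_r pd.loc_r x x.2
    refine ⟨m, ⟨x', hx'⟩, ?_⟩
    have h2 : h (cd.f .r (cd.z .r)) ^ m * x = pd.gN .r ⟨x', hx'⟩ := Subtype.ext h1
    change _ * τ (pd.gN .o x) = τ (pd.gN .r _)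
    rw [hgo, ← h2, map_mul, map_pow, hwr]
  have hloc_l : ∀ c ∈ C .o, ∃ m : ℕ, map (algebraMap k E) zk ^ m * c ∈ C .l :=
    fun c hc => CC_loc (τi .l) (τi .o) _ (hζC .l) hlocN_l c hc
  have hloc_r : ∀ c ∈ C .o, ∃ m : ℕ, map (algebraMap k E) wk ^ m * c ∈ C .r :=
    fun c hc => CC_loc (τi .r) (τi .o) _ (hζC .r) hlocN_r c hc
  -- constancy
  obtain ⟨G₁, hG₁, hG₁'⟩ := exists_gens (p := p) cd.mon_l (pd.fa .l) n₁ (pd.fin .l) (τi .l)
  obtain ⟨G₂, hG₂, hG₂'⟩ := exists_gens (p := p) cd.mon_r (pd.fa .r) n₁ (pd.fin .r) (τi .r)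
  rw [hζ .l] at hG₁'
  rw [hζ .r] at hG₂'
  have hst_l := stab_CC cd.mon_l (pd.fa .l) n₁ (pd.st .l) (τi .l) _ _ (hζ .l) (hυ .l) hkp
  have hst_r := stab_CC cd.mon_r (pd.fa .r) n₁ (pd.st .r) (τi .r) _ _ (hζ .r) (hυ .r) hkp
  have htr : ∀ Q : Polynomial E, Polynomial.aeval (map (algebraMap k E) zk) Q = 0 → Q = 0 := by
    intro Q hQ
    rw [hzk, map_add, map_C, map_X] at hQ
    exact trans_C_add_X _ Q hQ
  obtain ⟨hr_l, hr_r, hcon⟩ := constancy (p := p) hk (C .l) (C .r) zk wk hzw htr (hζC .l) G₁ hG₁ hG₁'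
    G₂ hG₂ hG₂' (fun c hc => hloc_r c (hCle .l hc)) (fun c hc => hloc_l c (hCle .r hc))
    (fun m l hl f hf => hst_l m l hl f hf) (fun m l hl f hf => hst_r m l hl f hf) hkp
  have hr_o : ∀ c ∈ C .o, c ∈ Submodule.span E
      {f | f ∈ C .o ∧ ∃ g : k⟦X⟧, map (algebraMap k E) g = f} := by
    intro c hc
    obtain ⟨m, hm⟩ := hloc_l c hc
    have h1 := hr_l _ hm
    have h2 : c = map (algebraMap k E) wk ^ m * (map (algebraMap k E) zk ^ m * c) := by
      rw [← mul_assoc, ← mul_pow, ← map_mul, mul_comm wk, hzw, map_one, one_pow, one_mul]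
    have hwo : map (algebraMap k E) wk ∈ C .o := hCle .r (hζC .r)
    have h3 : ∀ f ∈ Submodule.span E {f | f ∈ C .l ∧ ∃ g : k⟦X⟧, map (algebraMap k E) g = f},
        map (algebraMap k E) wk ^ m * f ∈ Submodule.span E
          {f | f ∈ C .o ∧ ∃ g : k⟦X⟧, map (algebraMap k E) g = f} := by
      intro f hf
      induction hf using Submodule.span_induction with
      | mem f hf =>
        obtain ⟨hf, g, rfl⟩ := hf
        refine Submodule.subset_span ⟨?_, wk ^ m * g, ?_⟩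
        · exact Subalgebra.mul_mem _ (Subalgebra.pow_mem _ hwo _) (hCle .l hf)
        · rw [map_mul, map_pow]
      | zero => rw [mul_zero]; exact Submodule.zero_mem _
      | add x y _ _ hx hy => rw [mul_add]; exact Submodule.add_mem _ hx hy
      | smul r x _ hx => rw [mul_smul_comm]; exact Submodule.smul_mem _ _ hx
    rw [h2]
    exact h3 _ h1
  have hr : ∀ i, ∀ c ∈ C i, c ∈ Submodule.span E
      {f | f ∈ C i ∧ ∃ g : k⟦X⟧, map (algebraMap k E) g = f} := by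
    intro i
    cases i
    · exact hr_o
    · exact hr_l
    · exact hr_r
  -- the rings of rational elements
  let B : Ix → Subalgebra k k⟦X⟧ := fun i => Rat' (C i)
  have hB : ∀ i, B i ≤ B .o := fun i f hf => hCle i hf
  have hinf : B .l ⊓ B .r = ⊥ := by
    rw [eq_bot_iff]
    intro b hb
    have h1 := hcon _ hb.1 hb.2
    rw [Algebra.mem_bot]
    refine ⟨constantCoeff b, ?_⟩
    apply PowerSeries.map_injective (algebraMap k E) (algebraMap k E).injective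
    rw [h1, constantCoeff_map', PowerSeries.algebraMap_apply, map_C]
    rfl
  -- the homomorphisms
  haveI hne : ∀ i, Nontrivial (P i) := fun i => ((e.comp (pd.g i) : P i →ₐ[κ] E) : P i →+* E).domain_nontrivial
  haveI hch : ∀ i, CharP (P i) p := fun i =>
    charP_of_injective_algebraMap (algebraMap κ (P i)).injective p
  haveI hech : ∀ i, ExpChar (P i) p := fun i => ExpChar.prime Fact.out
  let σ : ∀ i, P i →+* E⟦X⟧ := fun i => (τi i).toRingHom.comp
    ((iterateFrobenius (P i) p n₁).codRestrict (pd.N i) (fun x => by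
      rw [iterateFrobenius_def]; exact pow_mem_NQ _ _ x))
  have hσ : ∀ i x, σ i x = τi i ⟨x ^ p ^ n₁, pow_mem_NQ _ _ x⟩ := fun i x => by
    change τi i _ = _
    congr 1
  have hΨ : ∀ i, ∃ Ψ : P i →+* E ⊗[k] B i, ∀ c, Phi E (B i) (Ψ c) = σ i c := by
    intro i
    obtain ⟨Ψ, hΨ⟩ := exists_factor (σ i) (Phi E (B i)).toRingHom (Phi_injective (B i)) (by
      intro x
      obtain ⟨s, hs⟩ := exists_Phi (C i) (σ i x) (hr i _ (by rw [hσ]; exact apply_mem_CC _ _))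
      exact ⟨s, hs⟩)
    exact ⟨Ψ, hΨ⟩
  choose Ψ hΨ using hΨ
  have hσA : ∀ i (a : A i), σ i (pd.fa i a) = (τi i ⟨pd.fa i a, alg_mem_NQ _ _ a⟩) ^ p ^ n₁ := by
    intro i a
    have h1 : (⟨(pd.fa i a) ^ p ^ n₁, pow_mem_NQ _ _ _⟩ : pd.N i) =
      ⟨pd.fa i a, alg_mem_NQ _ _ a⟩ ^ p ^ n₁ := rfl
    rw [hσ, h1, map_pow]
  refine ⟨{
    B := B
    hB := hB
    hinf := hinf
    Ψ := Ψ
    ζ := fun i => ⟨ζ i, hζC i⟩
    υ := fun i => ⟨υ i, hυC i⟩
    hΨκ := ?_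
    hΨg := ?_
    hΨe := ?_
    hΨz := ?_
    hΨy := ?_
    pts := ?_ }⟩
  · intro i c
    apply Phi_injective (B i)
    rw [hΨ, hσ, Phi_tmul]
    have h1 : (⟨(algebraMap κ (P i) c) ^ p ^ n₁, pow_mem_NQ _ _ _⟩ : pd.N i) =
        (algebraMap κ (pd.N i) c) ^ p ^ n₁ := rfl
    rw [h1, map_pow, AlgHom.commutes]
    have h2 : map (algebraMap k E) ((1 : B i) : k⟦X⟧) = 1 := map_one _
    rw [h2, Algebra.smul_def, mul_one, map_pow, IsScalarTower.algebraMap_apply κ E E⟦X⟧]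
  · intro i c
    rw [hΨ, hΨ, hσ, hσ]
    change τ (pd.gN i _) = τ (pd.gN .o _)
    rw [hgo]
    congr 1
    apply Subtype.ext
    rw [pd.gN_coe]
    exact map_pow _ _ _
  · intro c
    rw [hΨ, hσ]
    change constantCoeff (τ (pd.gN .o _)) = _
    rw [hgo, hτc, map_pow]
  · intro i
    apply Phi_injective (B i)
    rw [hΨ, hσA, hζ, Phi_tmul, one_smul, ← map_pow]
    rfl
  · intro i
    apply Phi_injective (B i)
    rw [hΨ, hσA, hυ, Phi_tmul, one_smul, ← map_pow]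
    rfl
  · intro a b hab
    obtain ⟨G', hG', hG''⟩ := rat_finite (C .l) zk (hζC .l) G₁ hG₁ hG₁' hr_l
    rw [← val_map (R' := k)] at hab
    have e1 : t ((D.map (algebraMap k₀ k)).x 0) = zk := ht1
    have hx : t ((D.map (algebraMap k₀ k)).x 0) ∈ B .l := by rw [e1]; exact hζC .l
    obtain ⟨k', _, _, hfin, π, h1, h2⟩ := exists_point (B .l) t ht4 hx (hυC .l) G' hG'
      (by rw [e1]; exact hG'') a b hab
    refine ⟨k', inferInstance, inferInstance, hfin, π, ?_, h2⟩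
    rw [← h1]
    congr 1
    exact Subtype.ext e1.symm

end

end Pool.Agent.H920
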