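import Pool.Agent.H920.Alg.TaylorN
import Pool.Agent.H920.Alg.Chart
import Pool.Graph.R_pool_sql_team_seeded_1acbe0a2.Y939.NG.Curve

/-!
# The expansion of the coordinate functions at a point
-/

set_option autoImplicit false

open TensorProduct

namespace Pool.Agent.H920

open Pool.Agent.Y939.NG

lemma val_map {R R' : Type} [CommRing R] [CommRing R'] [Algebra R R'] (D : Dat R) (s : Fin 2)
    {C : Type*} [CommRing C] [Algebra R C] [Algebra R' C] [IsScalarTower R R' C] (a b : C) :
    (D.map (algebraMap R R')).val s a b = D.val s a b := by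
  unfold Dat.val Dat.map
  simp only [MvPolynomial.aeval_map_algebraMap]

section root

open PowerSeries

/-- uniqueness of the root with given constant coefficient -/
lemma val_root_unique {K : Type} [Field K] {D : Dat K} (hD : D.Good) (s : Fin 2) {F : Type}
    [Field F] [Algebra K F] (a b b' : F⟦X⟧) (h : D.val s a b = 0) (h' : D.val s a b' = 0)
    (hc : constantCoeff b = constantCoeff b') (hne : constantCoeff b' ≠ 0) : b = b' := by
  set P : F⟦X⟧ := MvPolynomial.aeval (w s a) D.P with hP
  have h1 : ((∑ i ∈ Finset.range D.n, b ^ i * b' ^ (D.n - 1 - i)) +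
      P * (∑ i ∈ Finset.range D.j, b ^ i * b' ^ (D.j - 1 - i))) * (b - b') = 0 := by
    have e1 := (Commute.all b b').geom_sum₂_mul D.n
    have e2 := (Commute.all b b').geom_sum₂_mul D.j
    unfold Dat.val at h h'
    rw [← hP] at h h'
    rw [add_mul, e1, mul_assoc, e2]
    linear_combination h - h'
  rcases mul_eq_zero.1 h1 with h2 | h2
  swap
  · exact sub_eq_zero.1 h2
  exfalso
  have h3 := congrArg (constantCoeff (R := F)) h2
  rw [map_add, map_mul, map_sum, map_sum, map_zero] at h3
  have e3 : ∀ m : ℕ, ∑ i ∈ Finset.range m, constantCoeff (b ^ i * b' ^ (m - 1 - i)) =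
      m * (constantCoeff b') ^ (m - 1) := by
    intro m
    rw [← geom_sum₂_self (constantCoeff b') m]
    refine Finset.sum_congr rfl fun i _ => ?_
    rw [map_mul, map_pow, map_pow, hc]
  rw [e3, e3] at h3
  have hj : constantCoeff P * ((D.j : F) * constantCoeff b' ^ (D.j - 1)) = 0 := by
    rcases hD.j_zero with h0 | h0
    · have : (D.j : F) = algebraMap K F (D.j : K) := by rw [map_natCast]
      rw [this, h0, map_zero, zero_mul, mul_zero]
    · rw [hP, h0, map_zero, map_zero, zero_mul]
  rw [hj, add_zero] at h3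
  rcases mul_eq_zero.1 h3 with h4 | h4
  · have : (D.n : F) = algebraMap K F (D.n : K) := by rw [map_natCast]
    rw [this] at h4
    exact hD.n_ne ((algebraMap K F).injective (by rw [h4, map_zero]))
  · exact hne (eq_zero_of_pow_eq_zero h4)

open Polynomial in
lemma trans_C_add_X {F : Type} [Field F] (z₀ : F) (P : F[X])
    (h : aeval (PowerSeries.C z₀ + PowerSeries.X : PowerSeries F) P = 0) : P = 0 := by
  have h1 : aeval (PowerSeries.C z₀ + PowerSeries.X : PowerSeries F) P =
      ((taylor z₀ P : F[X]) : PowerSeries F) := by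
    have h2 : aeval (PowerSeries.C z₀ + PowerSeries.X : PowerSeries F) =
        (Polynomial.coeToPowerSeries.algHom F).comp (taylorAlgHom z₀) := by
      apply Polynomial.algHom_ext
      rw [aeval_X, AlgHom.comp_apply]
      change _ = Polynomial.coeToPowerSeries.algHom F (taylor z₀ X)
      rw [taylor_X, map_add, Polynomial.coeToPowerSeries.algHom_apply,
        Polynomial.coeToPowerSeries.algHom_apply]
      simp [add_comm]
    rw [h2, AlgHom.comp_apply, Polynomial.coeToPowerSeries.algHom_apply]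
    simp
  rw [h1] at h
  have h3 : taylor z₀ P = 0 := by
    apply Polynomial.coe_injective F
    rw [h, Polynomial.coe_zero]
  exact taylor_injective z₀ (by rw [h3, map_zero])

end root

section mon

open Polynomial

variable {κ : Type} [Field κ] (D : Dat κ) (s : Fin 2)

lemma mon_A : Mon κ D.n (D.x s) (D.y s) := by
  intro a
  obtain ⟨g, rfl⟩ := AdjoinRoot.mk_surjective a
  have h1 : AdjoinRoot.mk (D.pol s) g = AdjoinRoot.mk (D.pol s) (g %ₘ D.pol s) := by
    rw [AdjoinRoot.mk_eq_mk]
    exact ⟨g /ₘ D.pol s, by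
      have := modByMonic_add_div g (D.pol s)
      linear_combination -this⟩
  rw [h1]
  set r := g %ₘ D.pol s with hr
  have hdeg : r.degree < D.n := by
    have := degree_modByMonic_lt g (D.pol_monic s)
    rwa [degree_eq_natDegree (D.pol_monic s).ne_zero, D.natDegree_pol s] at this
  have hnat : r.natDegree < D.n := by
    by_cases h0 : r = 0
    · rw [h0, natDegree_zero]; exact D.n_pos
    · rw [degree_eq_natDegree h0] at hdeg
      exact_mod_cast hdeg
  rw [r.as_sum_range, map_sum]
  apply Submodule.sum_mem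
  intro b hb
  have hb' : b < D.n := lt_of_lt_of_le (Finset.mem_range.1 hb) (by omega)
  have h2 : AdjoinRoot.mk (D.pol s) (monomial b (r.coeff b)) =
      AdjoinRoot.of (D.pol s) (r.coeff b) * D.y s ^ b := by
    rw [← C_mul_X_pow_eq_monomial, map_mul, map_pow, AdjoinRoot.mk_X, AdjoinRoot.mk_C]
    rfl
  rw [h2, D.of_eq]
  set c := r.coeff b
  rw [c.as_sum_range, map_sum, Finset.sum_mul]
  apply Submodule.sum_mem
  intro i _
  have h3 : Polynomial.aeval (D.x s) (monomial i (c.coeff i)) * D.y s ^ b =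
      c.coeff i • (D.x s ^ i * D.y s ^ b) := by
    rw [aeval_monomial, Algebra.smul_def, mul_assoc]
  rw [h3]
  exact Submodule.smul_mem _ _ (Submodule.subset_span ⟨i, b, hb', rfl⟩)

lemma Mon.adjoin {A : Type} [CommRing A] [Algebra κ A] {n : ℕ} {z y : A} (h : Mon κ n z y)
    (S : Set A) (hz : z ∈ S) (hy : y ∈ S) : Algebra.adjoin κ S = ⊤ := by
  rw [eq_top_iff]
  intro a _
  have h1 : Submodule.span κ {a | ∃ i b : ℕ, b < n ∧ a = z ^ i * y ^ b} ≤
      Subalgebra.toSubmodule (Algebra.adjoin κ S) := by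
    rw [Submodule.span_le]
    rintro _ ⟨i, b, _, rfl⟩
    exact Subalgebra.mul_mem _ (Subalgebra.pow_mem _ (Algebra.subset_adjoin hz) _)
      (Subalgebra.pow_mem _ (Algebra.subset_adjoin hy) _)
  exact h1 (h a)

lemma Mon.of_equiv {A B : Type} [CommRing A] [Algebra κ A] [CommRing B] [Algebra κ B]
    (e : A →ₐ[κ] B) (he : Function.Surjective e) {n : ℕ} {z y : A} (h : Mon κ n z y) :
    Mon κ n (e z) (e y) := by
  intro b
  obtain ⟨a, rfl⟩ := he b
  have ha := h a
  induction ha using Submodule.span_induction with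
  | mem a ha =>
    obtain ⟨i, b, hb, rfl⟩ := ha
    exact Submodule.subset_span ⟨i, b, hb, by rw [map_mul, map_pow, map_pow]⟩
  | zero => rw [map_zero]; exact Submodule.zero_mem _
  | add x y _ _ hx hy => rw [map_add]; exact Submodule.add_mem _ hx hy
  | smul r x _ hx => rw [map_smul]; exact Submodule.smul_mem _ _ hx

lemma aeval_x_ne_zero (Q : κ[X]) (hQ : Q ≠ 0) : Polynomial.aeval (D.x s) Q ≠ 0 := by
  rw [← D.of_eq]
  intro h
  apply hQ
  have hinj : Function.Injective (AdjoinRoot.of (D.pol s)) := by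
    apply AdjoinRoot.of.injective_of_degree_ne_zero
    rw [degree_eq_natDegree (D.pol_monic s).ne_zero, D.natDegree_pol s]
    exact_mod_cast D.n_pos.ne'
  exact hinj (by rw [h, map_zero])

end mon

section tk

open PowerSeries

variable {k : Type} [Field k] {p : ℕ} [Fact p.Prime] [CharP k p] {D : Dat k} (hD : D.Good)

include hD p

/-- the expansion of the functions at a rational point -/
theorem exists_tk (z₀ y₀ : k) (h0 : D.val 0 z₀ y₀ = 0) (hy₀ : y₀ ≠ 0) :
    ∃ t : D.A 0 →ₐ[k] k⟦X⟧, t (D.x 0) = PowerSeries.C z₀ + X ∧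
      constantCoeff (t (D.y 0)) = y₀ ∧ Function.Injective t := by
  haveI hdom := Dat.Good.isDomain_A D hD 0
  have hgen : Algebra.adjoin k {D.x 0, D.x 0, D.y 0} = ⊤ :=
    (mon_A D 0).adjoin _ (by simp) (by simp)
  haveI hft : Algebra.FiniteType k (D.A 0) := ⟨⟨{D.x 0, D.y 0}, by
    rw [← hgen]
    congr 1
    ext
    simp⟩⟩
  have hnoeth : IsNoetherianRing (k ⊗[k] D.A 0) := Algebra.FiniteType.isNoetherianRing k _
  let e : D.A 0 →ₐ[k] k := D.lift 0 z₀ y₀ h0
  have hez : e (D.x 0) = z₀ := D.lift_x 0 _ _ _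
  have hey : e (D.y 0) = y₀ := D.lift_y 0 _ _ _
  obtain ⟨T, hT1, hT2, -⟩ := exists_taylorN (p := p) hD hnoeth (AlgHom.id k (D.A 0)) e (D.x 0) (D.x 0)
    (D.y 0) hgen (Or.inr rfl) (D.rel 0) (by rw [AlgHom.id_apply, hey]; exact hy₀)
    (fun c => Submodule.subset_span ⟨c, 1, by simp⟩)
    (fun Q hQ c hc => (mul_eq_zero.1 hc).resolve_left (aeval_x_ne_zero D 0 Q hQ))
  let t : D.A 0 →ₐ[k] k⟦X⟧ := T.comp (Algebra.TensorProduct.includeRight : D.A 0 →ₐ[k] k ⊗[k] D.A 0)
  have ht : ∀ c, t c = T (1 ⊗ₜ c) := fun c => rfl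
  have htx : t (D.x 0) = PowerSeries.C z₀ + X := by
    rw [ht]
    have := hT1
    rw [AlgHom.id_apply, hez] at this
    exact this
  refine ⟨t, htx, ?_, ?_⟩
  · rw [ht, hT2, evE_tmul, one_mul, hey]
  · letI : Algebra (Polynomial k) (D.A 0) := inferInstance
    haveI : Module.Finite (Polynomial k) (D.A 0) := (D.pol_monic 0).finite_adjoinRoot
    haveI : Algebra.IsIntegral (Polynomial k) (D.A 0) := Algebra.IsIntegral.of_finite _ _
    have hb : RingHom.ker t = ⊥ := by
      apply Ideal.eq_bot_of_comap_eq_bot (R := Polynomial k)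
      rw [eq_bot_iff]
      intro Q hQ
      rw [Ideal.mem_comap, RingHom.mem_ker] at hQ
      have h1 : algebraMap (Polynomial k) (D.A 0) Q = Polynomial.aeval (D.x 0) Q := D.of_eq 0 Q
      rw [h1, ← Polynomial.aeval_algHom_apply, htx] at hQ
      exact (Submodule.mem_bot _).2 (trans_C_add_X z₀ Q hQ)
    rw [injective_iff_map_eq_zero]
    intro a ha
    have h2 : a ∈ RingHom.ker t := ha
    rw [hb] at h2
    exact (Submodule.mem_bot _).1 h2

end tk

end Pool.Agent.H920
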