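import Mathlib

/-!
# Stabilisation of the algebras generated by Frobenius powers
-/

set_option autoImplicit false

open TensorProduct

namespace Pool.Agent.H920

variable (p : ℕ) [Fact p.Prime]

/-- the span of the `p ^ n`-th powers -/
def powSpan (A P : Type) [CommRing A] [CommRing P] [Algebra A P] (n : ℕ) : Submodule A P :=
  Submodule.span A (Set.range fun f : P => f ^ p ^ n)

variable {p}

lemma pow_mem_powSpan {A P : Type} [CommRing A] [CommRing P] [Algebra A P] (n : ℕ) (f : P) :
    f ^ p ^ n ∈ powSpan p A P n := Submodule.subset_span ⟨f, rfl⟩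

lemma powSpan_anti {A P : Type} [CommRing A] [CommRing P] [Algebra A P] {m n : ℕ} (h : m ≤ n) :
    powSpan p A P n ≤ powSpan p A P m := by
  obtain ⟨a, rfl⟩ := Nat.exists_eq_add_of_le h
  refine Submodule.span_le.2 ?_
  rintro _ ⟨f, rfl⟩
  refine Submodule.subset_span ⟨f ^ p ^ a, ?_⟩
  change (f ^ p ^ a) ^ p ^ m = f ^ p ^ (m + a)
  rw [← pow_mul, ← pow_add, add_comm]

/-- stabilisation for finite algebras over a field -/
theorem exists_stab (κ O R' : Type) [Field κ] [CommRing O] [Algebra κ O] [CommRing R']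
    [Algebra κ R'] [Algebra O R'] [IsScalarTower κ O R'] [Module.Finite κ R'] :
    ∃ n₀, ∀ n, n₀ ≤ n → powSpan p O R' n₀ = powSpan p O R' n := by
  have : IsArtinian O R' := isArtinian_of_tower κ inferInstance
  exact IsArtinian.monotone_stabilizes
    (⟨fun n => OrderDual.toDual (powSpan p O R' n), fun _ _ h => powSpan_anti h⟩ :
      ℕ →o (Submodule O R')ᵒᵈ)

section

variable {A S P O R' : Type} [CommRing A] [CommRing S] [CommRing P] [CommRing O] [CommRing R']
  [Algebra A S] [Algebra A P] [Algebra O R'] [Module.FaithfullyFlat A S]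

/-- stabilisation descends along a faithfully flat base change -/
theorem stab_of_iso (hP : CharP (S ⊗[A] P) p) (ρ : R' →+* S ⊗[A] P) (β : O →+* S)
    (hρ : ∀ o, ρ (algebraMap O R' o) = β o ⊗ₜ 1)
    (hsurj : ∀ w, w ∈ Submodule.span S (Set.range ρ)) (n₀ n : ℕ)
    (h : powSpan p O R' n₀ = powSpan p O R' n) (f : P) : f ^ p ^ n₀ ∈ powSpan p A P n := by
  haveI : ExpChar (S ⊗[A] P) p := ExpChar.prime Fact.out
  -- the `S`-span of the powers of elements of `P`
  let N : Submodule S (S ⊗[A] P) :=
    Submodule.span S (Set.range fun g : P => (1 : S) ⊗ₜ[A] (g ^ p ^ n))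
  have h1 : ∀ w : S ⊗[A] P, w ^ p ^ n ∈ N := by
    intro w
    induction w using TensorProduct.induction_on with
    | zero =>
      rw [zero_pow (pow_ne_zero _ (Fact.out : p.Prime).ne_zero)]
      exact N.zero_mem
    | tmul s g =>
      rw [Algebra.TensorProduct.tmul_pow]
      have : (s ^ p ^ n) ⊗ₜ[A] (g ^ p ^ n) = (s ^ p ^ n) • ((1 : S) ⊗ₜ[A] (g ^ p ^ n)) := by
        rw [TensorProduct.smul_tmul', smul_eq_mul, mul_one]
      rw [this]
      exact N.smul_mem _ (Submodule.subset_span ⟨g, rfl⟩)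
    | add x y hx hy =>
      rw [add_pow_expChar_pow]
      exact N.add_mem hx hy
  have h2 : ∀ r : R', ρ (r ^ p ^ n₀) ∈ N := by
    intro r
    have h3 : r ^ p ^ n₀ ∈ powSpan p O R' n := h ▸ pow_mem_powSpan n₀ r
    have h4 : ∀ x ∈ powSpan p O R' n, ρ x ∈ N := by
      intro x hx
      induction hx using Submodule.span_induction with
      | mem x hx =>
        obtain ⟨r, rfl⟩ := hx
        change ρ (r ^ p ^ n) ∈ N
        rw [map_pow]
        exact h1 _
      | zero => rw [map_zero]; exact N.zero_mem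
      | add x y _ _ hx hy => rw [map_add]; exact N.add_mem hx hy
      | smul o x _ hx =>
        rw [Algebra.smul_def, map_mul, hρ]
        have : (β o ⊗ₜ[A] (1 : P)) * ρ x = β o • ρ x := by
          rw [Algebra.smul_def]
          rfl
        rw [this]
        exact N.smul_mem _ hx
    exact h4 _ h3
  have h5 : ∀ w : S ⊗[A] P, w ^ p ^ n₀ ∈ N := by
    intro w
    have hw := hsurj w
    induction hw using Submodule.span_induction with
    | mem x hx =>
      obtain ⟨r, rfl⟩ := hx
      rw [← map_pow]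
      exact h2 r
    | zero =>
      rw [zero_pow (pow_ne_zero _ (Fact.out : p.Prime).ne_zero)]
      exact N.zero_mem
    | add x y _ _ hx hy =>
      rw [add_pow_expChar_pow]
      exact N.add_mem hx hy
    | smul s x _ hx =>
      rw [smul_pow]
      exact N.smul_mem _ hx
  -- descend
  let M := powSpan p A P n
  let q : S ⊗[A] P →ₗ[S] S ⊗[A] (P ⧸ M) := M.mkQ.baseChange S
  have h6 : ∀ x ∈ N, q x = 0 := by
    intro x hx
    induction hx using Submodule.span_induction with
    | mem x hx =>
      obtain ⟨g, rfl⟩ := hx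
      change (M.mkQ.baseChange S) ((1 : S) ⊗ₜ[A] (g ^ p ^ n)) = 0
      rw [LinearMap.baseChange_tmul]
      have : M.mkQ (g ^ p ^ n) = 0 := by
        rw [Submodule.mkQ_apply, Submodule.Quotient.mk_eq_zero]
        exact pow_mem_powSpan n g
      rw [this, TensorProduct.tmul_zero]
    | zero => rw [map_zero]
    | add x y _ _ hx hy => rw [map_add, hx, hy, add_zero]
    | smul s x _ hx => rw [map_smul, hx, smul_zero]
  have h7 := h6 _ (h5 ((1 : S) ⊗ₜ f))
  rw [Algebra.TensorProduct.tmul_pow, one_pow] at h7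
  change (M.mkQ.baseChange S) ((1 : S) ⊗ₜ[A] (f ^ p ^ n₀)) = 0 at h7
  rw [LinearMap.baseChange_tmul] at h7
  have h8 : M.mkQ (f ^ p ^ n₀) = 0 := by
    have hinj : Function.Injective fun x : P ⧸ M => (1 : S) ⊗ₜ[A] x :=
      Module.FaithfullyFlat.tensorProduct_mk_injective (P ⧸ M)
    apply hinj
    change (1 : S) ⊗ₜ[A] M.mkQ (f ^ p ^ n₀) = (1 : S) ⊗ₜ[A] 0
    rw [h7, TensorProduct.tmul_zero]
  rwa [Submodule.mkQ_apply, Submodule.Quotient.mk_eq_zero] at h8

end

end Pool.Agent.H920
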