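import Mathlib

/-!
# Descent of subspaces of power series rings which are stable under coefficientwise linear maps
-/

set_option autoImplicit false

open PowerSeries

namespace Pool.Agent.H920

section coefMap

variable {R S : Type*} [CommRing R] [CommRing S]

/-- apply an additive map to all coefficients -/
noncomputable def coefMap (l : R →+ S) : R⟦X⟧ →+ S⟦X⟧ where
  toFun f := PowerSeries.mk fun i => l (coeff i f)
  map_zero' := by ext; simp
  map_add' f g := by ext; simp

@[simp] lemma coeff_coefMap (l : R →+ S) (f : R⟦X⟧) (i : ℕ) :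
    coeff i (coefMap l f) = l (coeff i f) := by simp [coefMap]

lemma coefMap_mul (l : R →+ R) (g f : R⟦X⟧) (h : ∀ i a, l (coeff i g * a) = coeff i g * l a) :
    coefMap l (g * f) = g * coefMap l f := by
  ext n
  rw [coeff_coefMap, coeff_mul, coeff_mul, map_sum]
  refine Finset.sum_congr rfl fun x _ => ?_
  rw [h, coeff_coefMap]

end coefMap

variable {E : Type*} [Field E] {p : ℕ} [Fact p.Prime] [CharP E p]

lemma exists_coeff_pow (f : E⟦X⟧) (n i : ℕ) : ∃ a : E, coeff i (f ^ p ^ n) = a ^ p ^ n := by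
  have h := MvPowerSeries.map_iterateFrobenius_expand (σ := Unit) (R := E) p
    (Fact.out : p.Prime).ne_zero f n
  refine ⟨coeff i (MvPowerSeries.expand (p ^ n) (pow_ne_zero _ (Fact.out : p.Prime).ne_zero) f), ?_⟩
  rw [← iterateFrobenius_def (R := E) p n]
  exact (congrArg (coeff i) h).symm.trans (coeff_map _ _ _)

/-- an additive map which is linear over `E ^ (p ^ n)` -/
def FrobLin (p n : ℕ) (l : E →+ E) : Prop := ∀ a b, l (a ^ p ^ n * b) = a ^ p ^ n * l b

/-- an element which is fixed by all `E ^ (p ^ n)`-linear maps fixing `1` is a `p ^ n`-th power -/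
lemma exists_pow_of_fixed (n : ℕ) (c : E)
    (h : ∀ l : E →+ E, FrobLin p n l → l 1 = 1 → l c = c) : ∃ a, a ^ p ^ n = c := by
  by_contra hcon
  push Not at hcon
  let F : Subfield E := (iterateFrobenius E p n).fieldRange
  have hF : ∀ a : E, a ^ p ^ n ∈ F := fun a => ⟨a, iterateFrobenius_def p n a⟩
  have hcF : c ∉ F := by
    rintro ⟨a, ha⟩
    exact hcon a ((iterateFrobenius_def p n a).symm.trans ha)
  have hc0 : c ≠ 0 := by
    rintro rfl
    exact hcF F.zero_mem
  have h1 : (1 : E) ∉ (Submodule.span F {c}) := by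
    intro h1
    obtain ⟨f, hf⟩ := Submodule.mem_span_singleton.1 h1
    have hf' : (f : E) * c = 1 := hf
    apply hcF
    rw [eq_inv_of_mul_eq_one_right hf']
    exact F.inv_mem f.2
  obtain ⟨φ, hφ, hφ'⟩ := Submodule.exists_le_ker_of_notMem h1
  have hφc : φ c = 0 := hφ' (Submodule.mem_span_singleton_self c)
  let l : E →+ E :=
    { toFun := fun e => ((φ e / φ 1 : F) : E)
      map_zero' := by simp
      map_add' := fun a b => by rw [map_add, add_div]; rfl }
  have hl : FrobLin p n l := by
    intro a b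
    have h2 : a ^ p ^ n * b = (⟨a ^ p ^ n, hF a⟩ : F) • b := rfl
    change ((φ (a ^ p ^ n * b) / φ 1 : F) : E) = a ^ p ^ n * ((φ b / φ 1 : F) : E)
    rw [h2, map_smul, smul_eq_mul, mul_div_assoc]
    rfl
  have hl1 : l 1 = 1 := by
    change ((φ 1 / φ 1 : F) : E) = 1
    rw [div_self hφ]
    rfl
  have h3 := h l hl hl1
  have h4 : l c = 0 := by
    change ((φ c / φ 1 : F) : E) = 0
    rw [hφc, zero_div]
    rfl
  exact hc0 (h3.symm.trans h4)

section pivot

/-- the coefficients in a finite set determine the elements of a finite-dimensional space -/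
lemma exists_finset (d : ℕ) : ∀ (H : Submodule E E⟦X⟧) [Module.Finite E H],
    Module.finrank E H = d → ∃ J : Finset ℕ, ∀ h ∈ H, (∀ j ∈ J, coeff j h = 0) → h = 0 := by
  induction d using Nat.strong_induction_on with
  | _ d ih =>
    intro H _ hd
    by_cases hH : H = ⊥
    · subst hH
      exact ⟨∅, fun h hh _ => (Submodule.mem_bot E).1 hh⟩
    · obtain ⟨h, hh, hne⟩ := Submodule.exists_mem_ne_zero_of_ne_bot hH
      obtain ⟨i, hi⟩ : ∃ i, coeff i h ≠ 0 := by
        by_contra hcon
        push Not at hcon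
        apply hne
        ext i
        rw [hcon i, map_zero]
      let H' : Submodule E E⟦X⟧ := H ⊓ LinearMap.ker (coeff (R := E) i)
      have hlt : H' < H := by
        refine lt_of_le_of_ne inf_le_left ?_
        intro heq
        have : h ∈ H' := by rw [heq]; exact hh
        exact hi this.2
      have : Module.Finite E H' := Submodule.finiteDimensional_of_le inf_le_left
      obtain ⟨J, hJ⟩ := ih (Module.finrank E H') (by
        rw [← hd]; exact Submodule.finrank_lt_finrank_of_lt hlt) H' rfl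
      refine ⟨insert i J, fun g hg hg' => hJ g ⟨hg, hg' i (Finset.mem_insert_self i J)⟩
        fun j hj => hg' j (Finset.mem_insert_of_mem hj)⟩

/-- the reduced basis -/
lemma exists_pivot (H : Submodule E E⟦X⟧) [Module.Finite E H] :
    ∃ (J : Finset ℕ) (b : ℕ → E⟦X⟧), (∀ h ∈ H, (∀ j ∈ J, coeff j h = 0) → h = 0) ∧
      (∀ j ∈ J, b j ∈ H) ∧ ∀ j ∈ J, ∀ i ∈ J, coeff i (b j) = if i = j then 1 else 0 := by
  classical
  obtain ⟨J₀, hJ₀⟩ := exists_finset _ H rfl
  have hex : ∃ n : ℕ, ∃ J : Finset ℕ, J.card = n ∧ ∀ h ∈ H, (∀ j ∈ J, coeff j h = 0) → h = 0 :=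
    ⟨_, J₀, rfl, hJ₀⟩
  obtain ⟨J, hJ, hJ'⟩ := Nat.find_spec hex
  have hmin : ∀ j ∈ J, ∃ b ∈ H, ∀ i ∈ J, coeff i b = if i = j then 1 else 0 := by
    intro j hj
    have h1 : ¬ ∀ h ∈ H, (∀ i ∈ J.erase j, coeff i h = 0) → h = 0 := by
      intro h2
      have h3 : (J.erase j).card < Nat.find hex := by
        rw [← hJ]; exact Finset.card_erase_lt_of_mem hj
      exact Nat.find_min hex h3 ⟨_, rfl, h2⟩
    push Not at h1
    obtain ⟨h, hh, hz, hne⟩ := h1
    have hjne : coeff j h ≠ 0 := by
      intro h0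
      apply hne
      apply hJ' h hh
      intro i hi
      by_cases hij : i = j
      · rw [hij, h0]
      · exact hz i (Finset.mem_erase.2 ⟨hij, hi⟩)
    refine ⟨(coeff j h)⁻¹ • h, H.smul_mem _ hh, fun i hi => ?_⟩
    rw [map_smul, smul_eq_mul]
    split_ifs with hij
    · rw [hij, inv_mul_cancel₀ hjne]
    · rw [hz i (Finset.mem_erase.2 ⟨hij, hi⟩), mul_zero]
  choose! b hb hb' using hmin
  exact ⟨J, b, hJ', hb, hb'⟩

end pivot

variable {k : Type*} [Field k] [Algebra k E]

/-- **Descent**: a finite-dimensional space of power series which is stable under all coefficientwise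
`E ^ (p ^ n)`-linear maps, for all `n`, is spanned by series with coefficients in `k = ⋂ E ^ (p ^ n)`. -/
theorem descent (hk : ∀ e : E, (∀ n, ∃ a, a ^ p ^ n = e) → ∃ c : k, algebraMap k E c = e)
    (H : Submodule E E⟦X⟧) [Module.Finite E H]
    (hst : ∀ n (l : E →+ E), FrobLin p n l → ∀ h ∈ H, coefMap l h ∈ H) :
    ∀ h ∈ H, h ∈ Submodule.span E {f | f ∈ H ∧ ∃ g : k⟦X⟧, map (algebraMap k E) g = f} := by
  classical
  obtain ⟨J, b, hJ, hb, hb'⟩ := exists_pivot H
  have key : ∀ j ∈ J, ∃ g : k⟦X⟧, map (algebraMap k E) g = b j := by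
    intro j hj
    have h1 : ∀ n (l : E →+ E), FrobLin p n l → l 1 = 1 → coefMap l (b j) = b j := by
      intro n l hl hl1
      rw [← sub_eq_zero]
      refine hJ _ (H.sub_mem (hst n l hl _ (hb j hj)) (hb j hj)) fun i hi => ?_
      rw [map_sub, coeff_coefMap, hb' j hj i hi]
      split_ifs
      · rw [hl1, sub_self]
      · rw [map_zero, sub_self]
    have h2 : ∀ i, ∃ c : k, algebraMap k E c = coeff i (b j) := by
      intro i
      refine hk _ fun n => exists_pow_of_fixed n _ fun l hl hl1 => ?_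
      have := congrArg (coeff i) (h1 n l hl hl1)
      rwa [coeff_coefMap] at this
    choose c hc using h2
    refine ⟨PowerSeries.mk c, ?_⟩
    ext i
    rw [coeff_map, coeff_mk, hc]
  intro h hh
  have h1 : h = ∑ j ∈ J, coeff j h • b j := by
    rw [← sub_eq_zero]
    refine hJ _ (H.sub_mem hh (H.sum_mem fun j hj => H.smul_mem _ (hb j hj))) fun i hi => ?_
    rw [map_sub, map_sum, Finset.sum_eq_single i]
    · rw [map_smul, hb' i hi i hi, if_pos rfl, smul_eq_mul, mul_one, sub_self]
    · intro j hj hji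
      rw [map_smul, hb' j hj i hi, if_neg (Ne.symm hji), smul_zero]
    · intro h2
      exact absurd hi h2
  rw [h1]
  exact Submodule.sum_mem _ fun j hj => Submodule.smul_mem _ _
    (Submodule.subset_span ⟨hb j hj, key j hj⟩)

end Pool.Agent.H920
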