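import Mathlib

/-!
# Taylor expansions at a point with one parameter

Let `C` be an algebra over a field `E`, let `𝔫` be an ideal with `C = E + 𝔫` and
`𝔫 = (u) + 𝔫 ^ 2`. Every element of `C` has a formal expansion in powers of `u`.
-/

set_option autoImplicit false

open PowerSeries

namespace Pool.Agent.H920.Taylor

variable {E C : Type*} [Field E] [CommRing C] [Algebra E C]

/-- the truncation of the power series `f`, evaluated at `u` -/
noncomputable def ev (u : C) (f : E⟦X⟧) (n : ℕ) : C := Polynomial.aeval u (trunc n f)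

/-- `f` is an expansion of `c` in powers of `u`. -/
def IsExp (𝔫 : Ideal C) (u : C) (c : C) (f : E⟦X⟧) : Prop := ∀ n, c - ev u f n ∈ 𝔫 ^ n

lemma ev_zero (u : C) (f : E⟦X⟧) : ev u f 0 = 0 := by
  simp [ev, trunc_zero']

lemma ev_succ (u : C) (f : E⟦X⟧) (n : ℕ) :
    ev u f (n + 1) = ev u f n + algebraMap E C (coeff n f) * u ^ n := by
  simp [ev, trunc_succ, Polynomial.aeval_monomial]

section

variable {𝔫 : Ideal C} {u : C}

lemma poly_sub (hu : u ∈ 𝔫) (P : Polynomial E) (n : ℕ) :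
    Polynomial.aeval u P - Polynomial.aeval u (trunc n (P : E⟦X⟧)) ∈ 𝔫 ^ n := by
  have h : (Polynomial.X ^ n : Polynomial E) ∣ P - trunc n (P : E⟦X⟧) := by
    rw [Polynomial.X_pow_dvd_iff]
    intro d hd
    rw [Polynomial.coeff_sub, coeff_trunc, if_pos hd, Polynomial.coeff_coe, sub_self]
  obtain ⟨G, hG⟩ := h
  rw [← map_sub, hG, map_mul, map_pow, Polynomial.aeval_X]
  exact Ideal.mul_mem_right _ _ (Ideal.pow_mem_pow hu n)

lemma isExp_algebraMap (hu : u ∈ 𝔫) (e : E) :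
    IsExp 𝔫 u (algebraMap E C e) (PowerSeries.C e) := by
  intro n
  have := poly_sub hu (Polynomial.C e) n
  simpa [ev] using this

lemma isExp_self (hu : u ∈ 𝔫) : IsExp 𝔫 u u (X : E⟦X⟧) := by
  intro n
  have := poly_sub hu (Polynomial.X : Polynomial E) n
  simpa [ev] using this

lemma IsExp.add {c d : C} {f g : E⟦X⟧} (hf : IsExp 𝔫 u c f) (hg : IsExp 𝔫 u d g) :
    IsExp 𝔫 u (c + d) (f + g) := by
  intro n
  have h : c + d - ev u (f + g) n = (c - ev u f n) + (d - ev u g n) := by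
    simp only [ev, map_add]; ring
  rw [h]
  exact Ideal.add_mem _ (hf n) (hg n)

lemma IsExp.mul (hu : u ∈ 𝔫) {c d : C} {f g : E⟦X⟧} (hf : IsExp 𝔫 u c f) (hg : IsExp 𝔫 u d g) :
    IsExp 𝔫 u (c * d) (f * g) := by
  intro n
  have h1 := poly_sub hu (trunc n f * trunc n g) n
  rw [Polynomial.coe_mul, trunc_trunc_mul_trunc, map_mul] at h1
  have h : c * d - ev u (f * g) n = (c - ev u f n) * d + ev u f n * (d - ev u g n) +
      (Polynomial.aeval u (trunc n f) * Polynomial.aeval u (trunc n g) -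
        Polynomial.aeval u (trunc n (f * g))) := by
    simp only [ev]; ring
  rw [h]
  exact Ideal.add_mem _ (Ideal.add_mem _ (Ideal.mul_mem_right _ _ (hf n))
    (Ideal.mul_mem_left _ _ (hg n))) h1

lemma IsExp.unique (h2 : ∀ n, u ^ n ∉ 𝔫 ^ (n + 1)) {c : C} {f g : E⟦X⟧} (hf : IsExp 𝔫 u c f)
    (hg : IsExp 𝔫 u c g) : f = g := by
  have key : ∀ n, ev u f n = ev u g n ∧ ∀ i < n, coeff i f = coeff i g := by
    intro n
    induction n with
    | zero => exact ⟨by rw [ev_zero, ev_zero], fun i hi => absurd hi (Nat.not_lt_zero i)⟩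
    | succ n ih =>
      have h1 : coeff n f = coeff n g := by
        by_contra hne
        apply h2 n
        have h3 : algebraMap E C (coeff n f - coeff n g) * u ^ n ∈ 𝔫 ^ (n + 1) := by
          have h4 : algebraMap E C (coeff n f - coeff n g) * u ^ n =
              (c - ev u g (n + 1)) - (c - ev u f (n + 1)) := by
            rw [ev_succ, ev_succ, ih.1, map_sub]; ring
          rw [h4]
          exact Ideal.sub_mem _ (hg _) (hf _)
        have h5 : u ^ n = algebraMap E C (coeff n f - coeff n g)⁻¹ *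
            (algebraMap E C (coeff n f - coeff n g) * u ^ n) := by
          rw [← mul_assoc, ← map_mul, inv_mul_cancel₀ (sub_ne_zero.2 hne), map_one, one_mul]
        rw [h5]
        exact Ideal.mul_mem_left _ _ h3
      refine ⟨by rw [ev_succ, ev_succ, ih.1, h1], fun i hi => ?_⟩
      rcases Nat.lt_succ_iff_lt_or_eq.1 hi with h | rfl
      · exact ih.2 i h
      · exact h1
  ext n
  exact (key (n + 1)).2 n (Nat.lt_succ_self n)

lemma pow_le (hu : u ∈ 𝔫) (h1 : 𝔫 ≤ Ideal.span {u} ⊔ 𝔫 ^ 2) (n : ℕ) :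
    𝔫 ^ n ≤ Ideal.span {u ^ n} ⊔ 𝔫 ^ (n + 1) := by
  induction n with
  | zero => simp
  | succ n ih =>
    have hun : Ideal.span {u ^ n} ≤ 𝔫 ^ n := by
      rw [Ideal.span_singleton_le_iff_mem]
      exact Ideal.pow_mem_pow hu n
    calc 𝔫 ^ (n + 1) = 𝔫 ^ n * 𝔫 := pow_succ _ _
      _ ≤ (Ideal.span {u ^ n} ⊔ 𝔫 ^ (n + 1)) * 𝔫 := Ideal.mul_mono_left ih
      _ = Ideal.span {u ^ n} * 𝔫 ⊔ 𝔫 ^ (n + 1) * 𝔫 := Ideal.sup_mul _ _ _
      _ ≤ Ideal.span {u ^ (n + 1)} ⊔ 𝔫 ^ (n + 1 + 1) := by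
        refine sup_le ?_ ?_
        · calc Ideal.span {u ^ n} * 𝔫 ≤ Ideal.span {u ^ n} * (Ideal.span {u} ⊔ 𝔫 ^ 2) :=
                Ideal.mul_mono_right h1
            _ = Ideal.span {u ^ n} * Ideal.span {u} ⊔ Ideal.span {u ^ n} * 𝔫 ^ 2 :=
                Ideal.mul_sup _ _ _
            _ ≤ _ := by
              refine sup_le_sup ?_ ?_
              · rw [Ideal.span_singleton_mul_span_singleton, ← pow_succ]
              · calc Ideal.span {u ^ n} * 𝔫 ^ 2 ≤ 𝔫 ^ n * 𝔫 ^ 2 := Ideal.mul_mono_left hun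
                  _ = 𝔫 ^ (n + 1 + 1) := by rw [← pow_add]
        · rw [← pow_succ]
          exact le_sup_right

lemma step (hu : u ∈ 𝔫) (h0 : ∀ c : C, ∃ e : E, c - algebraMap E C e ∈ 𝔫)
    (h1 : 𝔫 ≤ Ideal.span {u} ⊔ 𝔫 ^ 2) (n : ℕ) (d : C) (hd : d ∈ 𝔫 ^ n) :
    ∃ e : E, d - algebraMap E C e * u ^ n ∈ 𝔫 ^ (n + 1) := by
  obtain ⟨a, ha, m, hm, rfl⟩ := Submodule.mem_sup.1 (pow_le hu h1 n hd)
  obtain ⟨r, rfl⟩ := Ideal.mem_span_singleton'.1 ha
  obtain ⟨e, he⟩ := h0 r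
  refine ⟨e, ?_⟩
  have h : r * u ^ n + m - algebraMap E C e * u ^ n = (r - algebraMap E C e) * u ^ n + m := by ring
  rw [h, pow_succ']
  refine Ideal.add_mem _ (Ideal.mul_mem_mul he (Ideal.pow_mem_pow hu n)) ?_
  rw [← pow_succ']
  exact hm

/-- Existence of expansions. -/
theorem exists_isExp (hu : u ∈ 𝔫) (h0 : ∀ c : C, ∃ e : E, c - algebraMap E C e ∈ 𝔫)
    (h1 : 𝔫 ≤ Ideal.span {u} ⊔ 𝔫 ^ 2) (c : C) : ∃ f : E⟦X⟧, IsExp 𝔫 u c f := by
  choose e he using step (E := E) hu h0 h1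
  let d : ∀ n : ℕ, {d : C // d ∈ 𝔫 ^ n} := fun n => Nat.rec ⟨c, by simp⟩
    (fun n d => ⟨d.1 - algebraMap E C (e n d.1 d.2) * u ^ n, he n d.1 d.2⟩) n
  refine ⟨PowerSeries.mk (fun n => e n (d n).1 (d n).2), ?_⟩
  have key : ∀ n, c - ev u (PowerSeries.mk (fun n => e n (d n).1 (d n).2)) n = (d n).1 := by
    intro n
    induction n with
    | zero => rw [ev_zero, sub_zero]; rfl
    | succ n ih =>
      rw [ev_succ, ← sub_sub, ih, coeff_mk]
  intro n
  rw [key]
  exact (d n).2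

end

/-- The Taylor homomorphism. -/
theorem exists_taylor (e : C →ₐ[E] E) {u : C} (hu : e u = 0)
    (h1 : ∀ c, e c = 0 → ∃ c', c - u * c' ∈ (RingHom.ker e) ^ 2)
    (h2 : ∀ n, u ^ n ∉ (RingHom.ker e) ^ (n + 1)) :
    ∃ T : C →ₐ[E] E⟦X⟧, T u = X ∧ (∀ c, IsExp (RingHom.ker e) u c (T c)) ∧
      ∀ c, constantCoeff (T c) = e c := by
  set 𝔫 : Ideal C := RingHom.ker e with h𝔫
  have hu' : u ∈ 𝔫 := hu
  have h0 : ∀ c : C, ∃ e' : E, c - algebraMap E C e' ∈ 𝔫 := by
    intro c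
    refine ⟨e c, ?_⟩
    rw [h𝔫, RingHom.mem_ker]
    simp
  have h1' : 𝔫 ≤ Ideal.span {u} ⊔ 𝔫 ^ 2 := by
    intro c hc
    obtain ⟨c', hc'⟩ := h1 c hc
    rw [← sub_add_cancel c (u * c'), add_comm]
    exact Submodule.add_mem_sup (Ideal.mul_mem_right _ _ (Ideal.mem_span_singleton_self u)) hc'
  choose T hT using exists_isExp (E := E) hu' h0 h1'
  let T' : C →ₐ[E] E⟦X⟧ :=
    { toFun := T
      map_one' := by
        refine IsExp.unique h2 (hT 1) ?_
        have := isExp_algebraMap (E := E) hu' 1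
        simpa using this
      map_zero' := by
        refine IsExp.unique h2 (hT 0) ?_
        have := isExp_algebraMap (E := E) hu' 0
        simpa using this
      map_add' := fun c d => IsExp.unique h2 (hT _) ((hT c).add (hT d))
      map_mul' := fun c d => IsExp.unique h2 (hT _) ((hT c).mul hu' (hT d))
      commutes' := fun r => IsExp.unique h2 (hT _) (isExp_algebraMap hu' r) }
  refine ⟨T', IsExp.unique h2 (hT u) (isExp_self hu'), hT, ?_⟩
  intro c
  have h3 := hT c 1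
  rw [ev_succ, ev_zero, zero_add, pow_zero, mul_one, pow_one, h𝔫, RingHom.mem_ker, map_sub,
    sub_eq_zero, AlgHom.commutes, coeff_zero_eq_constantCoeff_apply] at h3
  exact h3.symm

end Pool.Agent.H920.Taylor
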