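import Pool.Agent.H920.Alg.Taylor
import Pool.Graph.R_pool_sql_team_seeded_1acbe0a2.Y939.NG.Ring

/-!
# The Taylor homomorphism for algebras over the chart of a plane curve
-/

set_option autoImplicit false

open PowerSeries TensorProduct

namespace Pool.Agent.H920

open Pool.Agent.Y939.NG

lemma pow_add_sq_zero {C : Type*} [CommRing C] (b δ : C) (h : δ ^ 2 = 0) (m : ℕ) :
    (b + δ) ^ m = b ^ m + m * b ^ (m - 1) * δ := by
  have := Polynomial.aeval_add_of_sq_eq_zero (Polynomial.X ^ m : Polynomial ℤ) b δ h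
  simpa [Polynomial.derivative_X_pow] using this

/-- uniqueness of the second coordinate -/
lemma val_unique {K : Type} [Field K] {D : Dat K} (hD : D.Good) {C : Type*} [CommRing C]
    [Algebra K C] (s : Fin 2) (a b b' : C) (h : D.val s a b = 0) (h' : D.val s a b' = 0)
    (hs : (b - b') ^ 2 = 0) (hu : IsUnit b') : b = b' := by
  obtain ⟨δ, hδ⟩ : ∃ δ, δ = b - b' := ⟨_, rfl⟩
  have hb : b = b' + δ := by rw [hδ]; ring
  rw [← hδ] at hs
  unfold Dat.val at h h'
  rw [hb, pow_add_sq_zero b' δ hs, pow_add_sq_zero b' δ hs] at h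
  have hjP : (MvPolynomial.aeval (w s a) D.P : C) * (D.j : C) = 0 := by
    rcases hD.j_zero with h0 | h0
    · have : (D.j : C) = algebraMap K C (D.j : K) := by rw [map_natCast]
      rw [this, h0, map_zero, mul_zero]
    · rw [h0, map_zero, zero_mul]
  have h3 : (D.n : C) * b' ^ (D.n - 1) * δ = 0 := by
    have e : (D.n : C) * b' ^ (D.n - 1) * δ =
      (b' ^ D.n + D.n * b' ^ (D.n - 1) * δ + (MvPolynomial.aeval (w s a) D.P *
        (b' ^ D.j + D.j * b' ^ (D.j - 1) * δ) + MvPolynomial.aeval (w s a) D.Q)) -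
      (b' ^ D.n + (MvPolynomial.aeval (w s a) D.P * b' ^ D.j + MvPolynomial.aeval (w s a) D.Q)) -
      (MvPolynomial.aeval (w s a) D.P * (D.j : C)) * (b' ^ (D.j - 1) * δ) := by ring
    rw [e, h, h', hjP]; ring
  have hn : IsUnit (D.n : C) := by
    have : (D.n : C) = algebraMap K C (D.n : K) := by rw [map_natCast]
    rw [this]
    exact (isUnit_iff_ne_zero.2 hD.n_ne).map _
  have h4 : IsUnit ((D.n : C) * b' ^ (D.n - 1)) := hn.mul (hu.pow _)
  have h5 : δ = 0 := h4.mul_left_cancel (by rw [h3, mul_zero])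
  rw [hb, h5, add_zero]

lemma val_map_hom {R : Type} [CommRing R] (D : Dat R) (s : Fin 2) {B C : Type*} [CommRing B]
    [Algebra R B] [CommRing C] [Algebra R C] (F : B →ₐ[R] C) (a b : B) :
    F (D.val s a b) = D.val s (F a) (F b) := by
  unfold Dat.val
  rw [map_add, map_add, map_mul, map_pow, map_pow, MvPolynomial.comp_aeval_apply,
    MvPolynomial.comp_aeval_apply]
  have : (fun i => F (w s a i)) = w s (F a) := by
    funext i
    unfold w
    split_ifs
    · exact map_one _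
    · rfl
  rw [this]

section nzd

variable {κ E N : Type} [Field κ] [Field E] [Algebra κ E] [CommRing N] [Algebra κ N]

lemma nzd_tensor (q : N) (hq : ∀ c : N, q * c = 0 → c = 0) (c : E ⊗[κ] N)
    (hc : ((1 : E) ⊗ₜ[κ] q) * c = 0) : c = 0 := by
  have h1 : Function.Injective (LinearMap.mulLeft κ q) := by
    rw [injective_iff_map_eq_zero]
    exact hq
  have h2 := Module.Flat.lTensor_preserves_injective_linearMap (M := E) (LinearMap.mulLeft κ q) h1
  apply h2
  rw [map_zero, ← hc]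
  clear hc
  induction c using TensorProduct.induction_on with
  | zero => simp
  | tmul a b => simp [LinearMap.lTensor_tmul]
  | add x y hx hy => rw [map_add, hx, hy, mul_add]

end nzd

section main

variable {κ E N A : Type} [Field κ] [Field E] [Algebra κ E] [CommRing N] [Algebra κ N]
  [CommRing A] [Algebra κ A]

/-- the extension of the point -/
noncomputable def evE (e : N →ₐ[κ] E) : E ⊗[κ] N →ₐ[E] E :=
  Algebra.TensorProduct.lift (AlgHom.id E E) e (fun _ _ => Commute.all _ _)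

lemma evE_tmul (e : N →ₐ[κ] E) (a : E) (b : N) : evE e (a ⊗ₜ b) = a * e b := by
  rw [evE, Algebra.TensorProduct.lift_tmul]; rfl

theorem exists_taylorN {p : ℕ} [Fact p.Prime] [CharP κ p] [Algebra.IsAlgebraic κ E]
    {D : Dat κ} (hD : D.Good) (hnoeth : IsNoetherianRing (E ⊗[κ] N)) (h : A →ₐ[κ] N) (e : N →ₐ[κ] E)
    (z w y : A) (hgen : Algebra.adjoin κ {z, w, y} = ⊤) (hzw' : z * w = 1 ∨ w = z)
    (hrel : D.val 0 z y = 0) (hy₀ : e (h y) ≠ 0)
    (hpow : ∀ c : N, c ∈ Submodule.span κ {c | ∃ a d, c = h a * d ^ p})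
    (hnzd : ∀ Q : Polynomial κ, Q ≠ 0 → ∀ c : N, h (Polynomial.aeval z Q) * c = 0 → c = 0) :
    ∃ T : E ⊗[κ] N →ₐ[E] E⟦X⟧, T (1 ⊗ₜ h z) = PowerSeries.C (e (h z)) + X ∧
      (∀ c, constantCoeff (T c) = evE e c) ∧
      ∀ c, Taylor.IsExp (RingHom.ker (evE e)) (1 ⊗ₜ h z - e (h z) ⊗ₜ 1) c (T c) := by
  haveI : CharP E p := charP_of_injective_algebraMap (algebraMap κ E).injective p
  haveI : Nontrivial N := (e : N →+* E).domain_nontrivial
  haveI : Nontrivial (E ⊗[κ] N) := by
    exact (evE e : E ⊗[κ] N →+* E).domain_nontrivial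
  haveI : CharP (E ⊗[κ] N) p := charP_of_injective_algebraMap (algebraMap E (E ⊗[κ] N)).injective p
  set z₀ := e (h z) with hz₀
  set u : E ⊗[κ] N := 1 ⊗ₜ h z - z₀ ⊗ₜ 1 with hu
  set 𝔫 : Ideal (E ⊗[κ] N) := RingHom.ker (evE e) with h𝔫
  have hu0 : evE e u = 0 := by
    rw [hu, map_sub, evE_tmul, evE_tmul, map_one, one_mul, mul_one, sub_self]
  have hu𝔫 : u ∈ 𝔫 := hu0
  set I : Ideal (E ⊗[κ] N) := Ideal.span {u} ⊔ 𝔫 ^ 2 with hI
  have huI : u ∈ I := le_sup_left (a := Ideal.span {u}) (Ideal.mem_span_singleton_self u)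
  have hI𝔫 : 𝔫 ^ 2 ≤ I := le_sup_right
  have hcoe : ∀ x : E, x ⊗ₜ[κ] (1 : N) = algebraMap E (E ⊗[κ] N) x := fun x => rfl
  -- the values of the functions on the chart
  have hA : ∀ a : A, (1 : E) ⊗ₜ[κ] h a - (e (h a)) ⊗ₜ[κ] (1 : N) ∈ I := by
    intro a
    have ha : a ∈ Algebra.adjoin κ {z, w, y} := by rw [hgen]; trivial
    induction ha using Algebra.adjoin_induction with
    | mem x hx =>
      rcases hx with rfl | rfl | rfl
      · exact huI
      · rcases hzw' with hzw | rfl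
        swap
        · exact huI
        have hw0 : z₀ * e (h x) = 1 := by rw [hz₀, ← map_mul, ← map_mul, hzw, map_one, map_one]
        have h1 : (1 : E) ⊗ₜ[κ] h x - (e (h x)) ⊗ₜ[κ] (1 : N) =
            (-((e (h x)) ⊗ₜ[κ] (h x))) * u := by
          rw [hu, mul_sub, neg_mul, neg_mul, Algebra.TensorProduct.tmul_mul_tmul,
            Algebra.TensorProduct.tmul_mul_tmul, mul_one, mul_one, mul_comm (h x), ← map_mul, hzw,
            map_one, mul_comm (e (h x)), hw0]
          ring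
        rw [h1]
        exact I.mul_mem_left _ huI
      · letI : Algebra κ ((E ⊗[κ] N) ⧸ I) := inferInstance
        let π : E ⊗[κ] N →ₐ[κ] ((E ⊗[κ] N) ⧸ I) := Ideal.Quotient.mkₐ κ I
        let F : A →ₐ[κ] ((E ⊗[κ] N) ⧸ I) :=
          (π.comp (Algebra.TensorProduct.includeRight : N →ₐ[κ] E ⊗[κ] N)).comp h
        let G : E →ₐ[κ] ((E ⊗[κ] N) ⧸ I) :=
          π.comp (Algebra.TensorProduct.includeLeft : E →ₐ[κ] E ⊗[κ] N)
        have hFz : F z = G z₀ := by
          have : π u = 0 := Ideal.Quotient.eq_zero_iff_mem.2 huI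
          rw [hu, map_sub, sub_eq_zero] at this
          exact this
        have e1 : D.val 0 (F z) (F x) = 0 := by rw [← val_map_hom, hrel, map_zero]
        have e2 : D.val 0 (F z) (G (e (h x))) = 0 := by
          rw [hFz, ← val_map_hom, hz₀]
          have : D.val 0 (e (h z)) (e (h x)) = (e.comp h) (D.val 0 z x) :=
            (val_map_hom D 0 (e.comp h) z x).symm
          rw [this, hrel, map_zero, map_zero]
        have e3 : (F x - G (e (h x))) ^ 2 = 0 := by
          change (π (1 ⊗ₜ h x) - π ((e (h x)) ⊗ₜ 1)) ^ 2 = 0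
          rw [← map_sub, ← map_pow]
          refine Ideal.Quotient.eq_zero_iff_mem.2 (hI𝔫 (Ideal.pow_mem_pow ?_ 2))
          rw [h𝔫, RingHom.mem_ker]
          change evE e _ = 0
          rw [map_sub, evE_tmul, evE_tmul, map_one, one_mul, mul_one, sub_self]
        have e4 := val_unique hD 0 (F z) (F x) (G (e (h x))) e1 e2 e3
          ((isUnit_iff_ne_zero.2 hy₀).map G)
        rw [← Ideal.Quotient.eq]
        exact e4
    | algebraMap r =>
      have : (1 : E) ⊗ₜ[κ] h (algebraMap κ A r) - (e (h (algebraMap κ A r))) ⊗ₜ[κ] (1 : N) = 0 := by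
        rw [AlgHom.commutes, AlgHom.commutes, Algebra.algebraMap_eq_smul_one (A := N),
          Algebra.algebraMap_eq_smul_one (A := E), TensorProduct.smul_tmul, sub_self]
      rw [this]
      exact I.zero_mem
    | add a b _ _ ha hb =>
      have : (1 : E) ⊗ₜ[κ] h (a + b) - (e (h (a + b))) ⊗ₜ[κ] (1 : N) =
        ((1 : E) ⊗ₜ[κ] h a - (e (h a)) ⊗ₜ[κ] (1 : N)) +
        ((1 : E) ⊗ₜ[κ] h b - (e (h b)) ⊗ₜ[κ] (1 : N)) := by
        rw [map_add, map_add, TensorProduct.tmul_add, TensorProduct.add_tmul]; ring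
      rw [this]
      exact I.add_mem ha hb
    | mul a b _ _ ha hb =>
      have : (1 : E) ⊗ₜ[κ] h (a * b) - (e (h (a * b))) ⊗ₜ[κ] (1 : N) =
        ((1 : E) ⊗ₜ[κ] h a - (e (h a)) ⊗ₜ[κ] (1 : N)) * ((1 : E) ⊗ₜ[κ] h b) +
        ((e (h a)) ⊗ₜ[κ] (1 : N)) * ((1 : E) ⊗ₜ[κ] h b - (e (h b)) ⊗ₜ[κ] (1 : N)) := by
        rw [sub_mul, mul_sub, Algebra.TensorProduct.tmul_mul_tmul, Algebra.TensorProduct.tmul_mul_tmul,
          Algebra.TensorProduct.tmul_mul_tmul, map_mul, map_mul]
        simp only [mul_one, one_mul]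
        ring
      rw [this]
      exact I.add_mem (I.mul_mem_right _ ha) (I.mul_mem_left _ hb)
  have hall : ∀ c : E ⊗[κ] N, c - algebraMap E (E ⊗[κ] N) (evE e c) ∈ I := by
    intro c
    induction c using TensorProduct.induction_on with
    | zero => simp
    | add x y hx hy =>
      have : x + y - algebraMap E (E ⊗[κ] N) (evE e (x + y)) =
        (x - algebraMap E (E ⊗[κ] N) (evE e x)) + (y - algebraMap E (E ⊗[κ] N) (evE e y)) := by
        rw [map_add, map_add]; ring
      rw [this]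
      exact I.add_mem hx hy
    | tmul x c =>
      have hc := hpow c
      induction hc using Submodule.span_induction with
      | mem c hc =>
        obtain ⟨a, d, rfl⟩ := hc
        have h2 : ((1 : E) ⊗ₜ[κ] d) ^ p - (algebraMap E (E ⊗[κ] N) (e d)) ^ p ∈ I := by
          rw [← sub_pow_char]
          apply hI𝔫
          have h3 : (1 : E) ⊗ₜ[κ] d - algebraMap E (E ⊗[κ] N) (e d) ∈ 𝔫 := by
            rw [h𝔫, RingHom.mem_ker]
            change evE e _ = 0
            rw [map_sub, evE_tmul, one_mul, AlgHom.commutes]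
            exact sub_self _
          exact Ideal.pow_le_pow_right (Fact.out : p.Prime).two_le (Ideal.pow_mem_pow h3 p)
        have h4 : x ⊗ₜ[κ] (h a * d ^ p) = algebraMap E (E ⊗[κ] N) x * ((1 : E) ⊗ₜ[κ] h a) *
            ((1 : E) ⊗ₜ[κ] d) ^ p := by
          rw [← hcoe, Algebra.TensorProduct.tmul_pow, Algebra.TensorProduct.tmul_mul_tmul,
            Algebra.TensorProduct.tmul_mul_tmul]
          simp
        have h5 : x ⊗ₜ[κ] (h a * d ^ p) - algebraMap E (E ⊗[κ] N) (evE e (x ⊗ₜ[κ] (h a * d ^ p))) =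
            algebraMap E (E ⊗[κ] N) x * ((1 : E) ⊗ₜ[κ] h a) *
              (((1 : E) ⊗ₜ[κ] d) ^ p - (algebraMap E (E ⊗[κ] N) (e d)) ^ p) +
            algebraMap E (E ⊗[κ] N) x * (algebraMap E (E ⊗[κ] N) (e d)) ^ p *
              ((1 : E) ⊗ₜ[κ] h a - (e (h a)) ⊗ₜ[κ] (1 : N)) := by
          rw [evE_tmul, h4, hcoe, map_mul, map_mul, map_mul, map_pow, map_pow]
          ring
        rw [h5]
        exact I.add_mem (I.mul_mem_left _ h2) (I.mul_mem_left _ (hA a))
      | zero => simp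
      | add c d _ _ hc hd =>
        have : x ⊗ₜ[κ] (c + d) - algebraMap E (E ⊗[κ] N) (evE e (x ⊗ₜ[κ] (c + d))) =
          (x ⊗ₜ[κ] c - algebraMap E (E ⊗[κ] N) (evE e (x ⊗ₜ[κ] c))) +
          (x ⊗ₜ[κ] d - algebraMap E (E ⊗[κ] N) (evE e (x ⊗ₜ[κ] d))) := by
          rw [TensorProduct.tmul_add, map_add, map_add]; ring
        rw [this]
        exact I.add_mem hc hd
      | smul r c _ hc =>
        have : x ⊗ₜ[κ] (r • c) - algebraMap E (E ⊗[κ] N) (evE e (x ⊗ₜ[κ] (r • c))) =
          algebraMap E (E ⊗[κ] N) (algebraMap κ E r) *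
          (x ⊗ₜ[κ] c - algebraMap E (E ⊗[κ] N) (evE e (x ⊗ₜ[κ] c))) := by
          have e1 : x ⊗ₜ[κ] (r • c) = algebraMap E (E ⊗[κ] N) (algebraMap κ E r) * (x ⊗ₜ[κ] c) := by
            rw [← hcoe, Algebra.TensorProduct.tmul_mul_tmul, one_mul, ← Algebra.smul_def,
              TensorProduct.smul_tmul]
          rw [e1, map_mul, AlgHom.commutes, map_mul]
          change _ - algebraMap E (E ⊗[κ] N) (algebraMap κ E r) * _ = _
          ring
        rw [this]
        exact I.mul_mem_left _ hc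
  have h1 : ∀ c, evE e c = 0 → ∃ c', c - u * c' ∈ 𝔫 ^ 2 := by
    intro c hc
    have h2 := hall c
    rw [hc, map_zero, sub_zero, hI] at h2
    obtain ⟨a, ha, m, hm, hcm⟩ := Submodule.mem_sup.1 h2
    obtain ⟨r, rfl⟩ := Ideal.mem_span_singleton'.1 ha
    refine ⟨r, ?_⟩
    rw [← hcm]
    have : r * u + m - u * r = m := by ring
    rw [this]
    exact hm
  -- `u` is not a zero divisor
  have hnz : ∀ c : E ⊗[κ] N, u * c = 0 → c = 0 := by
    intro c hc
    have hint : IsIntegral κ z₀ := (Algebra.IsAlgebraic.isAlgebraic z₀).isIntegral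
    have hroot : (Polynomial.X - Polynomial.C z₀) ∣ (minpoly κ z₀).map (algebraMap κ E) := by
      rw [Polynomial.dvd_iff_isRoot, Polynomial.IsRoot.def, Polynomial.eval_map_algebraMap]
      exact minpoly.aeval κ z₀
    obtain ⟨G, hG⟩ := hroot
    have h2 : (1 : E) ⊗ₜ[κ] h (Polynomial.aeval z (minpoly κ z₀)) =
        u * Polynomial.aeval ((1 : E) ⊗ₜ[κ] h z) G := by
      have e1 : (1 : E) ⊗ₜ[κ] h (Polynomial.aeval z (minpoly κ z₀)) =
          Polynomial.aeval ((1 : E) ⊗ₜ[κ] h z) ((minpoly κ z₀).map (algebraMap κ E)) := by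
        rw [Polynomial.aeval_map_algebraMap]
        change (Algebra.TensorProduct.includeRight : N →ₐ[κ] E ⊗[κ] N) (h _) =
          Polynomial.aeval ((Algebra.TensorProduct.includeRight : N →ₐ[κ] E ⊗[κ] N) (h z)) _
        rw [Polynomial.aeval_algHom_apply, Polynomial.aeval_algHom_apply]
      rw [e1, hG, map_mul, map_sub, Polynomial.aeval_X, Polynomial.aeval_C]
      rfl
    refine nzd_tensor (h (Polynomial.aeval z (minpoly κ z₀)))
      (hnzd _ (minpoly.ne_zero hint)) c ?_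
    rw [h2, mul_comm u, mul_assoc, hc, mul_zero]
  have h2 : ∀ n, u ^ n ∉ 𝔫 ^ (n + 1) := by
    intro n hn
    have hle : 𝔫 ^ n ≤ 𝔫 ^ (n + 1) := by
      have h1' : 𝔫 ≤ Ideal.span {u} ⊔ 𝔫 ^ 2 := by
        intro c hc
        have h2 := hall c
        have hc' : evE e c = 0 := hc
        rwa [hc', map_zero, sub_zero] at h2
      refine (Taylor.pow_le hu𝔫 h1' n).trans (sup_le ?_ le_rfl)
      rw [Ideal.span_singleton_le_iff_mem]
      exact hn
    obtain ⟨r, hr, hr'⟩ := Submodule.exists_sub_one_mem_and_smul_eq_zero_of_fg_of_le_smul 𝔫 (𝔫 ^ n)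
      (IsNoetherian.noetherian _) (by rw [smul_eq_mul, ← pow_succ']; exact hle)
    have h3 : r * u ^ n = 0 := hr' _ (Ideal.pow_mem_pow hu𝔫 n)
    have h4 : ∀ m : ℕ, ∀ c : E ⊗[κ] N, c * u ^ m = 0 → c = 0 := by
      intro m
      induction m with
      | zero => intro c hc; simpa using hc
      | succ m ih =>
        intro c hc
        apply ih
        apply hnz
        rw [pow_succ] at hc
        rw [← hc]; ring
    have h5 : r = 0 := h4 n r h3
    rw [h5, zero_sub] at hr
    have h6 : evE e (-1) = 0 := hr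
    rw [map_neg, map_one, neg_eq_zero] at h6
    exact one_ne_zero h6
  obtain ⟨T, hT1, hT2, hT3⟩ := Taylor.exists_taylor (evE e) hu0 h1 h2
  refine ⟨T, ?_, hT3, hT2⟩
  have h3 : (1 : E) ⊗ₜ[κ] h z = u + algebraMap E (E ⊗[κ] N) z₀ := by
    rw [hu, ← hcoe, sub_add_cancel]
  rw [h3, map_add, hT1, AlgHom.commutes, add_comm]
  rfl

end main

end Pool.Agent.H920
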